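import Mathlib

/-!
# Boolean circuits: basic definitions

Circuits over AND, OR (fan-in 2) and NOT (fan-in 1), with size = number of gates and
depth = number of gates on a longest path from a source to the output.
-/

set_option autoImplicit false

namespace Pool.Agent.H540R2

/-- A node of a circuit on `n` inputs: an input variable, a constant, or the gate with a given
number. -/
inductive Node (n : ℕ) where
  | var (i : Fin n) : Node n
  | const (b : Bool) : Node n
  | gate (j : ℕ) : Node n

/-- A gate: AND or OR with two operands, or NOT with one operand. -/
inductive Gate (n : ℕ) where
  | and (a b : Node n) : Gate n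
  | or (a b : Node n) : Gate n
  | not (a : Node n) : Gate n

variable {n : ℕ}

/-- The value of a node, given the input `x` and the values `v` of the gates. -/
def Node.eval (x : Fin n → Bool) (v : ℕ → Bool) : Node n → Bool
  | .var i => x i
  | .const b => b
  | .gate j => v j

/-- The value of a gate, given the input `x` and the values `v` of the gates. -/
def Gate.eval (x : Fin n → Bool) (v : ℕ → Bool) : Gate n → Bool
  | .and a b => a.eval x v && b.eval x v
  | .or a b => a.eval x v || b.eval x v
  | .not a => !(a.eval x v)

/-- The depth of a node, given the depths `d` of the gates (sources have depth `0`). -/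
def Node.depth (d : ℕ → ℕ) : Node n → ℕ
  | .var _ => 0
  | .const _ => 0
  | .gate j => d j

/-- The depth of a gate, given the depths `d` of the gates. -/
def Gate.depth (d : ℕ → ℕ) : Gate n → ℕ
  | .and a b => max (a.depth d) (b.depth d) + 1
  | .or a b => max (a.depth d) (b.depth d) + 1
  | .not a => a.depth d + 1

/-- The number of wires (`0` or `1`) that a node reference takes from gate `j`. -/
def Node.wires (j : ℕ) : Node n → ℕ
  | .var _ => 0
  | .const _ => 0
  | .gate i => if i = j then 1 else 0

/-- The number of wires (`0`, `1` or `2`) from gate `j` into a gate. -/
def Gate.wires (j : ℕ) : Gate n → ℕ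
  | .and a b => a.wires j + b.wires j
  | .or a b => a.wires j + b.wires j
  | .not a => a.wires j

/-- A Boolean circuit on `n` inputs. Its gates are `gate 0, …, gate (size - 1)`, numbered in a
topological order: a gate only takes wires from sources and from gates with smaller numbers.
(The values of `gate` at numbers `≥ size` play no role.) -/
structure Circuit (n : ℕ) where
  /-- the number of gates -/
  size : ℕ
  /-- the gates -/
  gate : ℕ → Gate n
  /-- the output node -/
  out : Node n
  /-- acyclicity -/
  gate_lt : ∀ i < size, ∀ j, (gate i).wires j ≠ 0 → j < i
  /-- the output is a source or one of the gates -/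
  out_lt : ∀ j, out.wires j ≠ 0 → j < size

/-- The value of gate number `i` on input `x`. -/
def Circuit.val (C : Circuit n) (x : Fin n → Bool) : ℕ → Bool
  | i => (C.gate i).eval x (fun j => if _h : j < i then C.val x j else false)
termination_by i => i

/-- The value computed by the circuit on input `x`. -/
def Circuit.eval (C : Circuit n) (x : Fin n → Bool) : Bool := C.out.eval x (C.val x)

/-- The depth of gate number `i`: the number of gates on a longest path from a source to it. -/
def Circuit.gateDepth (C : Circuit n) : ℕ → ℕ
  | i => (C.gate i).depth (fun j => if _h : j < i then C.gateDepth j else 0)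
termination_by i => i

/-- The depth of the circuit. -/
def Circuit.depth (C : Circuit n) : ℕ := C.out.depth C.gateDepth

/-- The fan-out of gate number `j`: the number of wires from it into gates. -/
def Circuit.fanout (C : Circuit n) (j : ℕ) : ℕ := ∑ i ∈ Finset.range C.size, (C.gate i).wires j

/-- The fan-out excess of a circuit: the sum over its gates of `fan-out - 1` (where the fan-out is
at least `1`). It is `0` exactly for formulas, i.e. when every gate has fan-out at most `1`. -/
def Circuit.excess (C : Circuit n) : ℕ := ∑ j ∈ Finset.range C.size, (C.fanout j - 1)

/-- The fan-out excess outside a set `A` of gates: the sum of `fan-out - 1` over the gates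
not in `A` (and of fan-out at least `1`). -/
def Circuit.excessOff (C : Circuit n) (A : Finset ℕ) : ℕ :=
  ∑ j ∈ (Finset.range C.size).filter (fun j => j ∉ A), (C.fanout j - 1)

/-- Two circuits are equivalent if they compute the same function. -/
def Circuit.Equiv (C C' : Circuit n) : Prop := ∀ x, C.eval x = C'.eval x

end Pool.Agent.H540R2
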