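import Mathlib
import Pool.Agent.H540R2.Circ

/-!
# Formulas with literals at the leaves, depth of functions, Spira's theorem
-/

set_option autoImplicit false

namespace Pool.Agent.H540R2

variable {n : ℕ}

/-- Formulas over AND and OR whose leaves are literals or constants. -/
inductive Fm (n : ℕ) where
  | lit (i : Fin n) (b : Bool) : Fm n
  | const (b : Bool) : Fm n
  | and (F G : Fm n) : Fm n
  | or (F G : Fm n) : Fm n

namespace Fm

/-- the value -/
def eval (x : Fin n → Bool) : Fm n → Bool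
  | .lit i b => x i == b
  | .const b => b
  | .and F G => F.eval x && G.eval x
  | .or F G => F.eval x || G.eval x

/-- depth -/
def depth : Fm n → ℕ
  | .lit _ _ => 0
  | .const _ => 0
  | .and F G => max F.depth G.depth + 1
  | .or F G => max F.depth G.depth + 1

/-- number of AND/OR gates -/
def sz : Fm n → ℕ
  | .lit _ _ => 0
  | .const _ => 0
  | .and F G => F.sz + G.sz + 1
  | .or F G => F.sz + G.sz + 1

/-- negation, pushed to the leaves -/
def neg : Fm n → Fm n
  | .lit i b => .lit i (!b)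
  | .const b => .const (!b)
  | .and F G => .or F.neg G.neg
  | .or F G => .and F.neg G.neg

@[simp] lemma eval_neg (x : Fin n → Bool) (F : Fm n) : F.neg.eval x = !(F.eval x) := by
  induction F with
  | lit i b => simp only [neg, eval]; cases x i <;> cases b <;> rfl
  | const b => rfl
  | and F G hF hG => simp [neg, eval, hF, hG]
  | or F G hF hG => simp [neg, eval, hF, hG]

@[simp] lemma depth_neg (F : Fm n) : F.neg.depth = F.depth := by
  induction F with
  | lit i b => rfl
  | const b => rfl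
  | and F G hF hG => simp [neg, depth, hF, hG]
  | or F G hF hG => simp [neg, depth, hF, hG]

@[simp] lemma sz_neg (F : Fm n) : F.neg.sz = F.sz := by
  induction F with
  | lit i b => rfl
  | const b => rfl
  | and F G hF hG => simp [neg, sz, hF, hG]
  | or F G hF hG => simp [neg, sz, hF, hG]

end Fm

/-- Boolean functions -/
abbrev BF (n : ℕ) := (Fin n → Bool) → Bool

/-- `f` is computed by a formula of depth at most `d`. -/
def Dp (f : BF n) (d : ℕ) : Prop := ∃ F : Fm n, F.depth ≤ d ∧ ∀ x, F.eval x = f x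

/-- `f` is computed by a formula with at most `s` gates AND/OR. -/
def Sz (f : BF n) (s : ℕ) : Prop := ∃ F : Fm n, F.sz ≤ s ∧ ∀ x, F.eval x = f x

lemma Dp.mono {f : BF n} {d d' : ℕ} (h : Dp f d) (hd : d ≤ d') : Dp f d' := by
  obtain ⟨F, h1, h2⟩ := h
  exact ⟨F, h1.trans hd, h2⟩

lemma Dp.congr {f g : BF n} {d : ℕ} (h : Dp f d) (hg : ∀ x, f x = g x) : Dp g d := by
  obtain ⟨F, h1, h2⟩ := h
  exact ⟨F, h1, fun x => (h2 x).trans (hg x)⟩

lemma Dp.const (b : Bool) (d : ℕ) : Dp (fun _ : Fin n → Bool => b) d :=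
  ⟨.const b, Nat.zero_le _, fun _ => rfl⟩

lemma Dp.var (i : Fin n) (d : ℕ) : Dp (fun x : Fin n → Bool => x i) d :=
  ⟨.lit i true, Nat.zero_le _, fun x => by simp [Fm.eval]⟩

lemma Dp.not {f : BF n} {d : ℕ} (h : Dp f d) : Dp (fun x => !(f x)) d := by
  obtain ⟨F, h1, h2⟩ := h
  exact ⟨F.neg, by simpa using h1, fun x => by simp [h2]⟩

lemma Dp.and {f g : BF n} {d : ℕ} (hf : Dp f d) (hg : Dp g d) :
    Dp (fun x => f x && g x) (d + 1) := by
  obtain ⟨F, h1, h2⟩ := hf
  obtain ⟨G, h3, h4⟩ := hg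
  exact ⟨F.and G, by simp [Fm.depth, h1, h3], fun x => by simp [Fm.eval, h2, h4]⟩

lemma Dp.or {f g : BF n} {d : ℕ} (hf : Dp f d) (hg : Dp g d) :
    Dp (fun x => f x || g x) (d + 1) := by
  obtain ⟨F, h1, h2⟩ := hf
  obtain ⟨G, h3, h4⟩ := hg
  exact ⟨F.or G, by simp [Fm.depth, h1, h3], fun x => by simp [Fm.eval, h2, h4]⟩

lemma Dp.mux {u f g : BF n} {d : ℕ} (hu : Dp u d) (hf : Dp f d) (hg : Dp g d) :
    Dp (fun x => if u x then f x else g x) (d + 2) := by
  have h := (hu.and hf).or (hu.not.and hg)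
  refine h.congr fun x => ?_
  cases u x <;> simp

lemma Sz.mono {f : BF n} {d d' : ℕ} (h : Sz f d) (hd : d ≤ d') : Sz f d' := by
  obtain ⟨F, h1, h2⟩ := h
  exact ⟨F, h1.trans hd, h2⟩

lemma Sz.congr {f g : BF n} {d : ℕ} (h : Sz f d) (hg : ∀ x, f x = g x) : Sz g d := by
  obtain ⟨F, h1, h2⟩ := h
  exact ⟨F, h1, fun x => (h2 x).trans (hg x)⟩

lemma Sz.const (b : Bool) (d : ℕ) : Sz (fun _ : Fin n → Bool => b) d :=
  ⟨.const b, Nat.zero_le _, fun _ => rfl⟩

lemma Sz.var (i : Fin n) (d : ℕ) : Sz (fun x : Fin n → Bool => x i) d :=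
  ⟨.lit i true, Nat.zero_le _, fun x => by simp [Fm.eval]⟩

lemma Sz.not {f : BF n} {d : ℕ} (h : Sz f d) : Sz (fun x => !(f x)) d := by
  obtain ⟨F, h1, h2⟩ := h
  exact ⟨F.neg, by simpa using h1, fun x => by simp [h2]⟩

lemma Sz.and {f g : BF n} {d e : ℕ} (hf : Sz f d) (hg : Sz g e) :
    Sz (fun x => f x && g x) (d + e + 1) := by
  obtain ⟨F, h1, h2⟩ := hf
  obtain ⟨G, h3, h4⟩ := hg
  exact ⟨F.and G, by simp only [Fm.sz]; omega, fun x => by simp [Fm.eval, h2, h4]⟩

lemma Sz.or {f g : BF n} {d e : ℕ} (hf : Sz f d) (hg : Sz g e) :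
    Sz (fun x => f x || g x) (d + e + 1) := by
  obtain ⟨F, h1, h2⟩ := hf
  obtain ⟨G, h3, h4⟩ := hg
  exact ⟨F.or G, by simp only [Fm.sz]; omega, fun x => by simp [Fm.eval, h2, h4]⟩

/-- the splitting step -/
lemma Fm.split (θ : ℕ) : ∀ F : Fm n, θ < F.sz → ∃ H F1 F0 A B : Fm n,
    (∀ x, F.eval x = if H.eval x then F1.eval x else F0.eval x) ∧
    F1.sz + H.sz ≤ F.sz ∧ F0.sz + H.sz ≤ F.sz ∧ θ < H.sz ∧
    (H = A.and B ∨ H = A.or B) ∧ A.sz ≤ θ ∧ B.sz ≤ θ := by
  intro F
  induction F with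
  | lit i b => intro h; simp [Fm.sz] at h
  | const b => intro h; simp [Fm.sz] at h
  | and A B hA hB =>
    intro h
    by_cases h1 : θ < A.sz
    · obtain ⟨H, F1, F0, A', B', e, s1, s0, hθ, hH, sA, sB⟩ := hA h1
      refine ⟨H, F1.and B, F0.and B, A', B', ?_, ?_, ?_, hθ, hH, sA, sB⟩
      · intro x; simp only [Fm.eval, e]; cases H.eval x <;> simp
      · simp only [Fm.sz]; omega
      · simp only [Fm.sz]; omega
    · by_cases h2 : θ < B.sz
      · obtain ⟨H, F1, F0, A', B', e, s1, s0, hθ, hH, sA, sB⟩ := hB h2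
        refine ⟨H, A.and F1, A.and F0, A', B', ?_, ?_, ?_, hθ, hH, sA, sB⟩
        · intro x; simp only [Fm.eval, e]; cases H.eval x <;> simp
        · simp only [Fm.sz]; omega
        · simp only [Fm.sz]; omega
      · refine ⟨A.and B, .const true, .const false, A, B, ?_, ?_, ?_, h, Or.inl rfl, ?_, ?_⟩
        · intro x; simp [Fm.eval]
        · simp [Fm.sz]
        · simp [Fm.sz]
        · omega
        · omega
  | or A B hA hB =>
    intro h
    by_cases h1 : θ < A.sz
    · obtain ⟨H, F1, F0, A', B', e, s1, s0, hθ, hH, sA, sB⟩ := hA h1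
      refine ⟨H, F1.or B, F0.or B, A', B', ?_, ?_, ?_, hθ, hH, sA, sB⟩
      · intro x; simp only [Fm.eval, e]; cases H.eval x <;> simp
      · simp only [Fm.sz]; omega
      · simp only [Fm.sz]; omega
    · by_cases h2 : θ < B.sz
      · obtain ⟨H, F1, F0, A', B', e, s1, s0, hθ, hH, sA, sB⟩ := hB h2
        refine ⟨H, A.or F1, A.or F0, A', B', ?_, ?_, ?_, hθ, hH, sA, sB⟩
        · intro x; simp only [Fm.eval, e]; cases H.eval x <;> simp
        · simp only [Fm.sz]; omega
        · simp only [Fm.sz]; omega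
      · refine ⟨A.or B, .const true, .const false, A, B, ?_, ?_, ?_, h, Or.inr rfl, ?_, ?_⟩
        · intro x; simp [Fm.eval]
        · simp [Fm.sz]
        · simp [Fm.sz]
        · omega
        · omega

/-- **Spira**: a formula of size less than `2 ^ k` has an equivalent formula of depth `3 k`. -/
lemma spira (k : ℕ) : ∀ F : Fm n, F.sz < 2 ^ k → Dp F.eval (3 * k) := by
  induction k with
  | zero =>
    intro F h
    refine ⟨F, ?_, fun x => rfl⟩
    cases F with
    | lit i b => simp [Fm.depth]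
    | const b => simp [Fm.depth]
    | and A B => simp [Fm.sz] at h
    | or A B => simp [Fm.sz] at h
  | succ k ih =>
    intro F h
    by_cases hs : F.sz < 2 ^ k
    · exact (ih F hs).mono (by omega)
    · have hpos : 0 < 2 ^ k := by positivity
      obtain ⟨H, F1, F0, A, B, e, s1, s0, hθ, hH, sA, sB⟩ := Fm.split (2 ^ k - 1) F (by omega)
      have hp : 2 ^ (k + 1) = 2 * 2 ^ k := by ring
      have d1 := ih F1 (by omega)
      have d0 := ih F0 (by omega)
      have dA := ih A (by omega)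
      have dB := ih B (by omega)
      have dH : Dp H.eval (3 * k + 1) := by
        rcases hH with rfl | rfl
        · exact (dA.and dB).congr fun x => by simp [Fm.eval]
        · exact (dA.or dB).congr fun x => by simp [Fm.eval]
      exact (dH.mux (d1.mono (by omega)) (d0.mono (by omega))).congr fun x => (e x).symm

lemma Sz.dp {f : BF n} {s k : ℕ} (h : Sz f s) (hk : s < 2 ^ k) : Dp f (3 * k) := by
  obtain ⟨F, h1, h2⟩ := h
  exact (spira k F (by omega)).congr h2

end Pool.Agent.H540R2
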