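import Mathlib
import Pool.Agent.H540R2.Fm

/-!
# Building circuits from formulas
-/

set_option autoImplicit false

namespace Pool.Agent.H540R2

variable {n : ℕ}

lemma Node.eval_congr {x : Fin n → Bool} {v w : ℕ → Bool} {a : Node n}
    (h : ∀ j, a.wires j ≠ 0 → v j = w j) : a.eval x v = a.eval x w := by
  cases a with
  | var i => rfl
  | const b => rfl
  | gate j => exact h j (by simp [Node.wires])

lemma Node.depth_congr {v w : ℕ → ℕ} {a : Node n}
    (h : ∀ j, a.wires j ≠ 0 → v j = w j) : a.depth v = a.depth w := by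
  cases a with
  | var i => rfl
  | const b => rfl
  | gate j => exact h j (by simp [Node.wires])

lemma Gate.eval_congr {x : Fin n → Bool} {v w : ℕ → Bool} {g : Gate n}
    (h : ∀ j, g.wires j ≠ 0 → v j = w j) : g.eval x v = g.eval x w := by
  cases g with
  | and a b =>
    simp only [Gate.eval]
    rw [Node.eval_congr (a := a) (fun j hj => h j (by simp only [Gate.wires]; omega)),
      Node.eval_congr (a := b) (fun j hj => h j (by simp only [Gate.wires]; omega))]
  | or a b =>
    simp only [Gate.eval]
    rw [Node.eval_congr (a := a) (fun j hj => h j (by simp only [Gate.wires]; omega)),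
      Node.eval_congr (a := b) (fun j hj => h j (by simp only [Gate.wires]; omega))]
  | not a =>
    simp only [Gate.eval]
    rw [Node.eval_congr (a := a) (fun j hj => h j (by simp only [Gate.wires]; omega))]

lemma Gate.depth_congr {v w : ℕ → ℕ} {g : Gate n}
    (h : ∀ j, g.wires j ≠ 0 → v j = w j) : g.depth v = g.depth w := by
  cases g with
  | and a b =>
    simp only [Gate.depth]
    rw [Node.depth_congr (a := a) (fun j hj => h j (by simp only [Gate.wires]; omega)),
      Node.depth_congr (a := b) (fun j hj => h j (by simp only [Gate.wires]; omega))]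
  | or a b =>
    simp only [Gate.depth]
    rw [Node.depth_congr (a := a) (fun j hj => h j (by simp only [Gate.wires]; omega)),
      Node.depth_congr (a := b) (fun j hj => h j (by simp only [Gate.wires]; omega))]
  | not a =>
    simp only [Gate.depth]
    rw [Node.depth_congr (a := a) (fun j hj => h j (by simp only [Gate.wires]; omega))]

namespace Circuit

lemma val_gate (P : Circuit n) {i : ℕ} (hi : i < P.size) (x : Fin n → Bool) :
    P.val x i = (P.gate i).eval x (P.val x) := by
  rw [val]
  apply Gate.eval_congr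
  intro j hj
  simp [P.gate_lt i hi j hj]

lemma gateDepth_gate (P : Circuit n) {i : ℕ} (hi : i < P.size) :
    P.gateDepth i = (P.gate i).depth P.gateDepth := by
  rw [gateDepth]
  apply Gate.depth_congr
  intro j hj
  simp [P.gate_lt i hi j hj]

/-- `P'` extends `P` by further gates -/
def Ext (P P' : Circuit n) : Prop := P.size ≤ P'.size ∧ ∀ i < P.size, P'.gate i = P.gate i

lemma Ext.refl (P : Circuit n) : Ext P P := ⟨le_rfl, fun _ _ => rfl⟩

lemma Ext.trans {P Q R : Circuit n} (h : Ext P Q) (h' : Ext Q R) : Ext P R :=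
  ⟨h.1.trans h'.1, fun i hi => (h'.2 i (lt_of_lt_of_le hi h.1)).trans (h.2 i hi)⟩

lemma Ext.val {P P' : Circuit n} (h : Ext P P') (x : Fin n → Bool) :
    ∀ i < P.size, P'.val x i = P.val x i := by
  intro i
  induction i using Nat.strong_induction_on with
  | _ i ih =>
    intro hi
    rw [P'.val_gate (lt_of_lt_of_le hi h.1), P.val_gate hi, h.2 i hi]
    apply Gate.eval_congr
    intro j hj
    have := P.gate_lt i hi j hj
    exact ih j this (this.trans hi)

lemma Ext.gateDepth {P P' : Circuit n} (h : Ext P P') :
    ∀ i < P.size, P'.gateDepth i = P.gateDepth i := by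
  intro i
  induction i using Nat.strong_induction_on with
  | _ i ih =>
    intro hi
    rw [P'.gateDepth_gate (lt_of_lt_of_le hi h.1), P.gateDepth_gate hi, h.2 i hi]
    apply Gate.depth_congr
    intro j hj
    have := P.gate_lt i hi j hj
    exact ih j this (this.trans hi)

lemma Ext.node_eval {P P' : Circuit n} (h : Ext P P') (x : Fin n → Bool) {a : Node n}
    (ha : ∀ j, a.wires j ≠ 0 → j < P.size) : a.eval x (P'.val x) = a.eval x (P.val x) :=
  Node.eval_congr fun j hj => h.val x j (ha j hj)

lemma Ext.node_depth {P P' : Circuit n} (h : Ext P P') {a : Node n}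
    (ha : ∀ j, a.wires j ≠ 0 → j < P.size) : a.depth P'.gateDepth = a.depth P.gateDepth :=
  Node.depth_congr fun j hj => h.gateDepth j (ha j hj)

/-- adding a gate, which becomes the output -/
def add (P : Circuit n) (g : Gate n) (hg : ∀ j, g.wires j ≠ 0 → j < P.size) : Circuit n where
  size := P.size + 1
  gate := Function.update P.gate P.size g
  out := .gate P.size
  gate_lt i hi j hj := by
    by_cases h : i = P.size
    · subst h
      rw [Function.update_self] at hj
      exact hg j hj
    · rw [Function.update_of_ne h] at hj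
      exact P.gate_lt i (by omega) j hj
  out_lt j hj := by
    simp only [Node.wires] at hj
    split_ifs at hj with h
    · omega
    · exact absurd rfl hj

lemma add_ext (P : Circuit n) (g : Gate n) (hg : ∀ j, g.wires j ≠ 0 → j < P.size) :
    Ext P (P.add g hg) :=
  ⟨Nat.le_succ _, fun i hi => Function.update_of_ne hi.ne _ _⟩

lemma add_eval (P : Circuit n) (g : Gate n) (hg : ∀ j, g.wires j ≠ 0 → j < P.size)
    (x : Fin n → Bool) : (P.add g hg).eval x = g.eval x (P.val x) := by
  have h1 : (P.add g hg).eval x = (P.add g hg).val x P.size := rfl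
  rw [h1, val_gate _ (show P.size < (P.add g hg).size from Nat.lt_succ_self _)]
  have h2 : (P.add g hg).gate P.size = g := Function.update_self _ _ _
  rw [h2]
  apply Gate.eval_congr
  intro j hj
  exact (P.add_ext g hg).val x j (hg j hj)

lemma add_depth (P : Circuit n) (g : Gate n) (hg : ∀ j, g.wires j ≠ 0 → j < P.size) :
    (P.add g hg).depth = g.depth P.gateDepth := by
  have h1 : (P.add g hg).depth = (P.add g hg).gateDepth P.size := rfl
  rw [h1, gateDepth_gate _ (show P.size < (P.add g hg).size from Nat.lt_succ_self _)]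
  have h2 : (P.add g hg).gate P.size = g := Function.update_self _ _ _
  rw [h2]
  apply Gate.depth_congr
  intro j hj
  exact (P.add_ext g hg).gateDepth j (hg j hj)

/-- changing the output -/
def setOut (P : Circuit n) (a : Node n) (ha : ∀ j, a.wires j ≠ 0 → j < P.size) : Circuit n where
  size := P.size
  gate := P.gate
  out := a
  gate_lt := P.gate_lt
  out_lt := ha

lemma setOut_ext (P : Circuit n) (a : Node n) (ha : ∀ j, a.wires j ≠ 0 → j < P.size) :
    Ext P (P.setOut a ha) := ⟨le_rfl, fun _ _ => rfl⟩

lemma setOut_ext' (P : Circuit n) (a : Node n) (ha : ∀ j, a.wires j ≠ 0 → j < P.size) :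
    Ext (P.setOut a ha) P := ⟨le_rfl, fun _ _ => rfl⟩

lemma setOut_eval (P : Circuit n) (a : Node n) (ha : ∀ j, a.wires j ≠ 0 → j < P.size)
    (x : Fin n → Bool) : (P.setOut a ha).eval x = a.eval x (P.val x) := by
  show a.eval x ((P.setOut a ha).val x) = _
  exact (P.setOut_ext a ha).node_eval x ha

lemma setOut_depth (P : Circuit n) (a : Node n) (ha : ∀ j, a.wires j ≠ 0 → j < P.size) :
    (P.setOut a ha).depth = a.depth P.gateDepth := by
  show a.depth (P.setOut a ha).gateDepth = _
  exact (P.setOut_ext a ha).node_depth ha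

/-- Appending a formula whose leaves are nodes of the circuit. -/
lemma build {m : ℕ} (F : Fm m) : ∀ (P : Circuit n) (ν : Fin m → Node n)
    (_ : ∀ i j, (ν i).wires j ≠ 0 → j < P.size),
    ∃ P' : Circuit n, Ext P P' ∧ P'.size + 1 ≤ P.size + 2 ^ (F.depth + 1) ∧
      (∀ x, P'.eval x = F.eval (fun i => (ν i).eval x (P.val x))) ∧
      ∀ D, (∀ i, (ν i).depth P.gateDepth ≤ D) → P'.depth ≤ D + F.depth + 1 := by
  induction F with
  | lit i b =>
    intro P ν hν
    cases b with
    | true =>
      refine ⟨P.setOut (ν i) (hν i), P.setOut_ext _ _, ?_, ?_, ?_⟩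
      · show P.size + 1 ≤ _
        simp only [Fm.depth]; norm_num
      · intro x; rw [setOut_eval]; simp [Fm.eval]
      · intro D hD; rw [setOut_depth]; have := hD i; simp only [Fm.depth]; omega
    | false =>
      have hg : ∀ j, (Gate.not (ν i)).wires j ≠ 0 → j < P.size := fun j hj => hν i j hj
      refine ⟨P.add (.not (ν i)) hg, P.add_ext _ _, ?_, ?_, ?_⟩
      · show P.size + 1 + 1 ≤ _
        simp only [Fm.depth]; norm_num
      · intro x; rw [add_eval]; simp [Fm.eval, Gate.eval]
      · intro D hD; rw [add_depth]; have := hD i; simp only [Fm.depth, Gate.depth]; omega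
  | const b =>
    intro P ν hν
    have hc : ∀ j, (Node.const b : Node n).wires j ≠ 0 → j < P.size :=
      fun j hj => absurd rfl hj
    refine ⟨P.setOut (.const b) hc, P.setOut_ext _ _, ?_, ?_, ?_⟩
    · show P.size + 1 ≤ _
      simp only [Fm.depth]; norm_num
    · intro x; rw [setOut_eval]; simp [Fm.eval, Node.eval]
    · intro D hD; rw [setOut_depth]; simp [Node.depth]
  | and F G hF hG =>
    intro P ν hν
    obtain ⟨P1, e1, s1, v1, d1⟩ := hF P ν hν
    obtain ⟨P2, e2, s2, v2, d2⟩ := hG P1 ν (fun i j hj => lt_of_lt_of_le (hν i j hj) e1.1)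
    have ho1 : ∀ j, P1.out.wires j ≠ 0 → j < P2.size := fun j hj =>
      lt_of_lt_of_le (P1.out_lt j hj) e2.1
    have hg : ∀ j, (Gate.and P1.out P2.out).wires j ≠ 0 → j < P2.size := by
      intro j hj
      simp only [Gate.wires] at hj
      by_cases h : P1.out.wires j = 0
      · exact P2.out_lt j (by omega)
      · exact ho1 j h
    refine ⟨P2.add (.and P1.out P2.out) hg, (e1.trans e2).trans (P2.add_ext _ _), ?_, ?_, ?_⟩
    · show P2.size + 1 + 1 ≤ _
      have h1 : 2 ^ (F.depth + 1) ≤ 2 ^ (max F.depth G.depth + 1) :=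
        Nat.pow_le_pow_right (by norm_num) (by omega)
      have h2 : 2 ^ (G.depth + 1) ≤ 2 ^ (max F.depth G.depth + 1) :=
        Nat.pow_le_pow_right (by norm_num) (by omega)
      simp only [Fm.depth]
      rw [pow_succ 2 (max F.depth G.depth + 1)]
      omega
    · intro x
      rw [add_eval]
      simp only [Gate.eval, Fm.eval]
      rw [e2.node_eval x P1.out_lt]
      have h1 : P1.out.eval x (P1.val x) = P1.eval x := rfl
      have h2 : P2.out.eval x (P2.val x) = P2.eval x := rfl
      rw [h1, h2, v1, v2]
      congr 2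
      funext i
      exact e1.node_eval x (hν i)
    · intro D hD
      rw [add_depth]
      simp only [Gate.depth, Fm.depth]
      rw [e2.node_depth P1.out_lt]
      have h1 : P1.out.depth P1.gateDepth = P1.depth := rfl
      have h2 : P2.out.depth P2.gateDepth = P2.depth := rfl
      rw [h1, h2]
      have := d1 D hD
      have := d2 D (fun i => by rw [e1.node_depth (hν i)]; exact hD i)
      omega
  | or F G hF hG =>
    intro P ν hν
    obtain ⟨P1, e1, s1, v1, d1⟩ := hF P ν hν
    obtain ⟨P2, e2, s2, v2, d2⟩ := hG P1 ν (fun i j hj => lt_of_lt_of_le (hν i j hj) e1.1)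
    have ho1 : ∀ j, P1.out.wires j ≠ 0 → j < P2.size := fun j hj =>
      lt_of_lt_of_le (P1.out_lt j hj) e2.1
    have hg : ∀ j, (Gate.or P1.out P2.out).wires j ≠ 0 → j < P2.size := by
      intro j hj
      simp only [Gate.wires] at hj
      by_cases h : P1.out.wires j = 0
      · exact P2.out_lt j (by omega)
      · exact ho1 j h
    refine ⟨P2.add (.or P1.out P2.out) hg, (e1.trans e2).trans (P2.add_ext _ _), ?_, ?_, ?_⟩
    · show P2.size + 1 + 1 ≤ _
      have h1 : 2 ^ (F.depth + 1) ≤ 2 ^ (max F.depth G.depth + 1) :=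
        Nat.pow_le_pow_right (by norm_num) (by omega)
      have h2 : 2 ^ (G.depth + 1) ≤ 2 ^ (max F.depth G.depth + 1) :=
        Nat.pow_le_pow_right (by norm_num) (by omega)
      simp only [Fm.depth]
      rw [pow_succ 2 (max F.depth G.depth + 1)]
      omega
    · intro x
      rw [add_eval]
      simp only [Gate.eval, Fm.eval]
      rw [e2.node_eval x P1.out_lt]
      have h1 : P1.out.eval x (P1.val x) = P1.eval x := rfl
      have h2 : P2.out.eval x (P2.val x) = P2.eval x := rfl
      rw [h1, h2, v1, v2]
      congr 2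
      funext i
      exact e1.node_eval x (hν i)
    · intro D hD
      rw [add_depth]
      simp only [Gate.depth, Fm.depth]
      rw [e2.node_depth P1.out_lt]
      have h1 : P1.out.depth P1.gateDepth = P1.depth := rfl
      have h2 : P2.out.depth P2.gateDepth = P2.depth := rfl
      rw [h1, h2]
      have := d1 D hD
      have := d2 D (fun i => by rw [e1.node_depth (hν i)]; exact hD i)
      omega

/-- the circuit without gates -/
def empty (n : ℕ) : Circuit n where
  size := 0
  gate := fun _ => .not (.const false)
  out := .const false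
  gate_lt := by simp
  out_lt := by simp [Node.wires]

end Circuit

lemma Dp.toCircuit {f : BF n} {d : ℕ} (h : Dp f d) :
    ∃ C : Circuit n, C.depth ≤ d + 1 ∧ C.size < 2 ^ (d + 1) ∧ ∀ x, C.eval x = f x := by
  obtain ⟨F, hF, hf⟩ := h
  obtain ⟨P', _, s, v, dd⟩ := Circuit.build F (Circuit.empty n) (fun i => .var i)
    (by simp [Node.wires])
  refine ⟨P', ?_, ?_, ?_⟩
  · have := dd 0 (fun i => by simp [Node.depth])
    omega
  · have h0 : (Circuit.empty n).size = 0 := rfl
    rw [h0] at s
    have h1 : 2 ^ (F.depth + 1) ≤ 2 ^ (d + 1) := Nat.pow_le_pow_right (by norm_num) (by omega)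
    omega
  · intro x
    rw [v x, ← hf x]
    rfl

end Pool.Agent.H540R2
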