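import Mathlib
import Pool.Agent.H540R2.Fm

/-!
# The Paterson–Valiant depth bound for systems of equations

A *system* is a finite set `V` of nodes, each node `v` having at most two predecessors in `V`, and
a value `val v x = G v x (value of first predecessor) (value of second predecessor)`, where for
fixed arguments `G v · s t` has a formula of depth `≤ L`.
-/

set_option autoImplicit false

namespace Pool.Agent.H540R2

variable {n : ℕ}

/-- the value of an optional argument -/
def arg (val : ℕ → BF n) (x : Fin n → Bool) : Option ℕ → Bool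
  | none => false
  | some u => val u x

/-- a system -/
structure IsSys (V : Finset ℕ) (a b : ℕ → Option ℕ)
    (G : ℕ → (Fin n → Bool) → Bool → Bool → Bool) (val : ℕ → BF n) (L : ℕ) : Prop where
  val_eq : ∀ v ∈ V, ∀ x, val v x = G v x (arg val x (a v)) (arg val x (b v))
  dp : ∀ v ∈ V, ∀ s t, Dp (fun x => G v x s t) L
  lta : ∀ v ∈ V, ∀ u, a v = some u → u ∈ V ∧ u < v
  ltb : ∀ v ∈ V, ∀ u, b v = some u → u ∈ V ∧ u < v

/-- count of an optional argument -/
def oc (o : Option ℕ) : ℕ := if o = none then 0 else 1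

/-- number of wires of a system -/
def sysWires (V : Finset ℕ) (a b : ℕ → Option ℕ) : ℕ := ∑ v ∈ V, (oc (a v) + oc (b v))

lemma Dp.comb {G : (Fin n → Bool) → Bool → Bool → Bool} {p q : BF n} {m : ℕ}
    (hG : ∀ s t, Dp (fun x => G x s t) m) (hp : Dp p m) (hq : Dp q m) :
    Dp (fun x => G x (p x) (q x)) (m + 4) := by
  have h1 : ∀ s, Dp (fun x => if q x then G x s true else G x s false) (m + 2) :=
    fun s => hq.mux (hG s true) (hG s false)
  have h2 := (hp.mono (Nat.le_add_right m 2)).mux (h1 true) (h1 false)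
  refine h2.congr fun x => ?_
  cases p x <;> cases q x <;> simp

lemma Dp.assign (val : ℕ → BF n) (m : ℕ) (Q : Finset ℕ) : ∀ H : (ℕ → Bool) → BF n,
    (∀ α, Dp (H α) m) → (∀ u ∈ Q, Dp (val u) m) →
    Dp (fun x => H (fun u => if u ∈ Q then val u x else false) x) (m + 2 * Q.card) := by
  induction Q using Finset.induction_on with
  | empty => intro H hH _; simpa using hH (fun _ => false)
  | insert u Q hu ih =>
    intro H hH hv
    have h1 : ∀ c : Bool, Dp (fun x => H (Function.update
        (fun u => if u ∈ Q then val u x else false) u c) x) (m + 2 * Q.card) := fun c =>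
      ih (fun α => H (Function.update α u c)) (fun α => hH _)
        (fun w hw => hv w (Finset.mem_insert_of_mem hw))
    have h2 := ((hv u (Finset.mem_insert_self _ _)).mono
      (Nat.le_add_right m (2 * Q.card))).mux (h1 true) (h1 false)
    rw [Finset.card_insert_of_notMem hu]
    refine (h2.mono (by omega)).congr fun x => ?_
    have key : ∀ c, val u x = c → Function.update (fun u => if u ∈ Q then val u x else false) u c
        = fun w => if w ∈ insert u Q then val w x else false := by
      intro c hc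
      funext w
      by_cases hw : w = u
      · subst hw; simp [hc]
      · simp [Finset.mem_insert, hw]
    have e : H (fun w => if w ∈ insert u Q then val w x else false) x =
        H (Function.update (fun u => if u ∈ Q then val u x else false) u (val u x)) x := by
      rw [key _ rfl]
    show (if val u x = true then _ else _) = _
    rw [e]
    cases val u x <;> rfl

/-- replaced argument -/
def sel (Y : Finset ℕ) (e : ℕ → Bool) (o : Option ℕ) (s : Bool) : Bool :=
  match o with
  | none => s
  | some u => if u ∈ Y then s else e u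

/-- restricted predecessor -/
def fil (Y : Finset ℕ) (o : Option ℕ) : Option ℕ :=
  match o with
  | none => none
  | some u => if u ∈ Y then some u else none

/-- crossing count -/
def cr (Y : Finset ℕ) (o : Option ℕ) : ℕ :=
  match o with
  | none => 0
  | some u => if u ∈ Y then 0 else 1

/-- crossing set -/
def crs (Y : Finset ℕ) (o : Option ℕ) : Finset ℕ :=
  match o with
  | none => ∅
  | some u => if u ∈ Y then ∅ else {u}

lemma oc_eq (Y : Finset ℕ) (o : Option ℕ) : oc o = oc (fil Y o) + cr Y o := by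
  cases o with
  | none => simp [oc, fil, cr]
  | some u => by_cases h : u ∈ Y <;> simp [oc, fil, cr, h]

lemma card_crs (Y : Finset ℕ) (o : Option ℕ) : (crs Y o).card = cr Y o := by
  cases o with
  | none => simp [crs, cr]
  | some u => by_cases h : u ∈ Y <;> simp [crs, cr, h]

/-- evaluation with outside values given by `α` -/
def ev (Y : Finset ℕ) (a b : ℕ → Option ℕ) (G : ℕ → (Fin n → Bool) → Bool → Bool → Bool)
    (α : ℕ → Bool) (x : Fin n → Bool) : ℕ → Bool
  | v => if v ∈ Y then
      G v x (match a v with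
        | none => false
        | some u => if _h : u < v then ev Y a b G α x u else α u)
       (match b v with
        | none => false
        | some u => if _h : u < v then ev Y a b G α x u else α u)
      else α v
termination_by v => v

lemma ev_of_notMem {Y : Finset ℕ} {a b : ℕ → Option ℕ}
    {G : ℕ → (Fin n → Bool) → Bool → Bool → Bool} {α : ℕ → Bool} {x : Fin n → Bool} {v : ℕ}
    (h : v ∉ Y) : ev Y a b G α x v = α v := by
  rw [ev]; simp [h]

lemma ev_of_mem {Y : Finset ℕ} {a b : ℕ → Option ℕ}
    {G : ℕ → (Fin n → Bool) → Bool → Bool → Bool} {α : ℕ → Bool} {x : Fin n → Bool} {v : ℕ}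
    (h : v ∈ Y) (ha : ∀ u, a v = some u → u < v) (hb : ∀ u, b v = some u → u < v) :
    ev Y a b G α x v = G v x (arg (fun u x => ev Y a b G α x u) x (a v))
      (arg (fun u x => ev Y a b G α x u) x (b v)) := by
  rw [ev]
  simp only [h, if_true]
  congr 1
  · cases hav : a v with
    | none => simp [arg]
    | some u => simp [arg, ha u hav]
  · cases hbv : b v with
    | none => simp [arg]
    | some u => simp [arg, hb u hbv]

section

variable {V : Finset ℕ} {a b : ℕ → Option ℕ} {G : ℕ → (Fin n → Bool) → Bool → Bool → Bool}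
  {val : ℕ → BF n} {L : ℕ}

lemma IsSys.restrict (h : IsSys V a b G val L) {y : ℕ} :
    IsSys (V.filter (· < y)) a b G val L where
  val_eq v hv x := h.val_eq v (Finset.mem_filter.1 hv).1 x
  dp v hv := h.dp v (Finset.mem_filter.1 hv).1
  lta v hv u hu := by
    have := h.lta v (Finset.mem_filter.1 hv).1 u hu
    exact ⟨Finset.mem_filter.2 ⟨this.1, this.2.trans (Finset.mem_filter.1 hv).2⟩, this.2⟩
  ltb v hv u hu := by
    have := h.ltb v (Finset.mem_filter.1 hv).1 u hu
    exact ⟨Finset.mem_filter.2 ⟨this.1, this.2.trans (Finset.mem_filter.1 hv).2⟩, this.2⟩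

lemma fil_some {Y : Finset ℕ} {o : Option ℕ} {u : ℕ} (h : fil Y o = some u) :
    o = some u ∧ u ∈ Y := by
  cases o with
  | none => simp [fil] at h
  | some w =>
    by_cases hw : w ∈ Y
    · simp [fil, hw] at h; subst h; exact ⟨rfl, hw⟩
    · simp [fil, hw] at h

lemma sel_arg {Y : Finset ℕ} {val' : ℕ → BF n} {x : Fin n → Bool} (o : Option ℕ) :
    sel Y (fun u => val' u x) o (arg val' x (fil Y o)) = arg val' x o := by
  cases o with
  | none => simp [sel, arg, fil]
  | some u => by_cases hu : u ∈ Y <;> simp [sel, arg, fil, hu]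

/-- cutting, with the outside values kept as functions -/
lemma IsSys.cutA (h : IsSys V a b G val L) {Y : Finset ℕ} (hY : Y ⊆ V) {m : ℕ} (hm : L ≤ m)
    (hout : ∀ u ∈ V, u ∉ Y → Dp (val u) m) :
    IsSys Y (fun v => fil Y (a v)) (fun v => fil Y (b v))
      (fun v x s t => G v x (sel Y (fun u => val u x) (a v) s) (sel Y (fun u => val u x) (b v) t))
      val (m + 4) where
  val_eq v hv x := by
    simp only [sel_arg]
    exact h.val_eq v (hY hv) x
  dp v hv s t := by
    refine Dp.comb (G := fun x s t => G v x s t) (fun s t => (h.dp v (hY hv) s t).mono hm) ?_ ?_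
    · cases hav : a v with
      | none => simp only [sel]; exact Dp.const _ _
      | some u =>
        by_cases hu : u ∈ Y
        · simp only [sel, hu, if_true]; exact Dp.const _ _
        · simp only [sel, hu, if_false]
          exact hout u (h.lta v (hY hv) u hav).1 hu
    · cases hbv : b v with
      | none => simp only [sel]; exact Dp.const _ _
      | some u =>
        by_cases hu : u ∈ Y
        · simp only [sel, hu, if_true]; exact Dp.const _ _
        · simp only [sel, hu, if_false]
          exact hout u (h.ltb v (hY hv) u hbv).1 hu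
  lta v hv u hu := by
    have := fil_some hu
    exact ⟨this.2, (h.lta v (hY hv) u this.1).2⟩
  ltb v hv u hu := by
    have := fil_some hu
    exact ⟨this.2, (h.ltb v (hY hv) u this.1).2⟩

/-- cutting, with the outside values replaced by constants -/
lemma IsSys.cutB (h : IsSys V a b G val L) {Y : Finset ℕ} (hY : Y ⊆ V) (α : ℕ → Bool) :
    IsSys Y (fun v => fil Y (a v)) (fun v => fil Y (b v))
      (fun v x s t => G v x (sel Y α (a v) s) (sel Y α (b v) t))
      (fun v x => ev Y a b G α x v) L where
  val_eq v hv x := by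
    have key : ∀ o : Option ℕ, sel Y α o (arg (fun v x => ev Y a b G α x v) x (fil Y o)) =
        arg (fun v x => ev Y a b G α x v) x o := by
      intro o
      cases o with
      | none => simp [sel, arg, fil]
      | some u =>
        by_cases hu : u ∈ Y
        · simp [sel, arg, fil, hu]
        · simp [sel, arg, hu, ev_of_notMem hu]
    simp only [key]
    exact ev_of_mem hv (fun u hu => (h.lta v (hY hv) u hu).2)
      (fun u hu => (h.ltb v (hY hv) u hu).2)
  dp v hv s t := h.dp v (hY hv) _ _
  lta v hv u hu := by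
    have := fil_some hu
    exact ⟨this.2, (h.lta v (hY hv) u this.1).2⟩
  ltb v hv u hu := by
    have := fil_some hu
    exact ⟨this.2, (h.ltb v (hY hv) u this.1).2⟩

lemma IsSys.ev_eq (h : IsSys V a b G val L) {Y Q : Finset ℕ} (hY : Y ⊆ V) (x : Fin n → Bool)
    (hQa : ∀ v ∈ Y, ∀ u, a v = some u → u ∉ Y → u ∈ Q)
    (hQb : ∀ v ∈ Y, ∀ u, b v = some u → u ∉ Y → u ∈ Q) :
    ∀ v ∈ Y, ev Y a b G (fun u => if u ∈ Q then val u x else false) x v = val v x := by
  intro v
  induction v using Nat.strong_induction_on with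
  | _ v ih =>
    intro hv
    rw [ev_of_mem hv (fun u hu => (h.lta v (hY hv) u hu).2)
      (fun u hu => (h.ltb v (hY hv) u hu).2), h.val_eq v (hY hv) x]
    have key : ∀ o : Option ℕ, (∀ u, o = some u → u < v) → (∀ u, o = some u → u ∉ Y → u ∈ Q) →
        arg (fun v x' => ev Y a b G (fun u => if u ∈ Q then val u x else false) x' v) x o =
          arg val x o := by
      intro o ho1 ho2
      cases o with
      | none => simp [arg]
      | some u =>
        simp only [arg]
        by_cases hu : u ∈ Y
        · exact ih u (ho1 u rfl) hu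
        · rw [ev_of_notMem hu]
          simp [ho2 u rfl hu]
    rw [key (a v) (fun u hu => (h.lta v (hY hv) u hu).2) (hQa v hv),
      key (b v) (fun u hu => (h.ltb v (hY hv) u hu).2) (hQb v hv)]

end

/-- the bound on the number of wires -/
noncomputable def Mw (d : ℕ) : ℝ := d * Real.logb 2 d / 16384

lemma m_mono {x y : ℝ} (hx : 1 ≤ x) (hxy : x ≤ y) : x * Real.logb 2 x ≤ y * Real.logb 2 y := by
  have h1 : Real.logb 2 x ≤ Real.logb 2 y := Real.logb_le_logb_of_le (by norm_num) (by linarith) hxy
  have h2 : 0 ≤ Real.logb 2 x := Real.logb_nonneg (by norm_num) hx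
  nlinarith

lemma Mw_small {d : ℕ} (h : d < 1024) : Mw d < 1 := by
  unfold Mw
  rcases Nat.eq_zero_or_pos d with rfl | hd
  · simp
  have h1 : (1 : ℝ) ≤ d := by exact_mod_cast hd
  have h2 : (d : ℝ) ≤ 1024 := by exact_mod_cast h.le
  have h3 := m_mono h1 h2
  have h4 : Real.logb 2 (1024 : ℝ) = 10 := by
    rw [show (1024 : ℝ) = 2 ^ (10 : ℕ) by norm_num, Real.logb_pow]
    simp
  rw [h4] at h3
  linarith

lemma logb_facts {d : ℕ} (hd : 1024 ≤ d) :
    10 ≤ Real.logb 2 d ∧ Real.logb 2 d ≤ d ∧ Real.logb 2 ((d : ℝ) / 4) = Real.logb 2 d - 2 ∧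
      Real.logb 2 ((d : ℝ) / 2) = Real.logb 2 d - 1 := by
  have hd' : (1024 : ℝ) ≤ d := by exact_mod_cast hd
  have hpos : (0 : ℝ) < d := by linarith
  refine ⟨?_, ?_, ?_, ?_⟩
  · rw [show (10 : ℝ) = Real.logb 2 (1024 : ℝ) by
      rw [show (1024 : ℝ) = 2 ^ (10 : ℕ) by norm_num, Real.logb_pow]; simp]
    exact Real.logb_le_logb_of_le (by norm_num) (by norm_num) hd'
  · rw [Real.logb_le_iff_le_rpow (by norm_num) hpos]
    have : (d : ℝ) ≤ (2 : ℝ) ^ d := by
      exact_mod_cast (Nat.lt_two_pow_self (n := d)).le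
    simpa using this
  · rw [Real.logb_div hpos.ne' (by norm_num), show (4 : ℝ) = 2 ^ (2 : ℕ) by norm_num,
      Real.logb_pow]
    simp
  · rw [Real.logb_div hpos.ne' (by norm_num)]
    simp

lemma Mw_half {d k : ℕ} (hd : 1024 ≤ d) (hk : (d : ℝ) / 2 - 5 ≤ k) :
    ((d : ℝ) / 2 - 5) * (Real.logb 2 d - 2) / 16384 ≤ Mw k := by
  obtain ⟨l1, l2, l3, l4⟩ := logb_facts hd
  have hd' : (1024 : ℝ) ≤ d := by exact_mod_cast hd
  unfold Mw
  have h1 : ((d : ℝ) / 2 - 5) * Real.logb 2 ((d : ℝ) / 4) ≤
      ((d : ℝ) / 2 - 5) * Real.logb 2 ((d : ℝ) / 2 - 5) := by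
    apply mul_le_mul_of_nonneg_left
    · exact Real.logb_le_logb_of_le (by norm_num) (by linarith) (by linarith)
    · linarith
  have h2 := m_mono (x := (d : ℝ) / 2 - 5) (y := k) (by linarith) hk
  rw [l3] at h1
  linarith

lemma Mw_A {d : ℕ} (hd : 1024 ≤ d) :
    Mw d ≤ Mw (d / 2 - 4) + Mw (d - d / 2 - 4) + d / 16 := by
  obtain ⟨l1, l2, l3, l4⟩ := logb_facts hd
  have hd' : (1024 : ℝ) ≤ d := by exact_mod_cast hd
  have e1 : (d : ℝ) / 2 - 5 ≤ ((d / 2 - 4 : ℕ) : ℝ) := by
    have : d ≤ 2 * (d / 2 - 4) + 10 := by omega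
    have : (d : ℝ) ≤ 2 * ((d / 2 - 4 : ℕ) : ℝ) + 10 := by exact_mod_cast this
    linarith
  have e2 : (d : ℝ) / 2 - 5 ≤ ((d - d / 2 - 4 : ℕ) : ℝ) := by
    have : d ≤ 2 * (d - d / 2 - 4) + 10 := by omega
    have : (d : ℝ) ≤ 2 * ((d - d / 2 - 4 : ℕ) : ℝ) + 10 := by exact_mod_cast this
    linarith
  have h1 := Mw_half hd e1
  have h2 := Mw_half hd e2
  have h3 : Mw d = d * Real.logb 2 d / 16384 := rfl
  rw [h3]
  nlinarith

lemma Mw_B {d q : ℕ} (hd : 1024 ≤ d) (hq : 16 * q < d) :
    Mw d ≤ Mw (d / 2 - 4) + Mw (d - 2 * q - 1) := by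
  obtain ⟨l1, l2, l3, l4⟩ := logb_facts hd
  have hd' : (1024 : ℝ) ≤ d := by exact_mod_cast hd
  have e1 : (d : ℝ) / 2 - 5 ≤ ((d / 2 - 4 : ℕ) : ℝ) := by
    have : d ≤ 2 * (d / 2 - 4) + 10 := by omega
    have : (d : ℝ) ≤ 2 * ((d / 2 - 4 : ℕ) : ℝ) + 10 := by exact_mod_cast this
    linarith
  have e2 : 3 * (d : ℝ) / 4 ≤ ((d - 2 * q - 1 : ℕ) : ℝ) := by
    have : 3 * d ≤ 4 * (d - 2 * q - 1) := by omega
    have : 3 * (d : ℝ) ≤ 4 * ((d - 2 * q - 1 : ℕ) : ℝ) := by exact_mod_cast this
    linarith
  have h1 := Mw_half hd e1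
  have h2 := m_mono (x := 3 * (d : ℝ) / 4) (y := ((d - 2 * q - 1 : ℕ) : ℝ)) (by linarith) e2
  have h4 : Real.logb 2 d - 1 ≤ Real.logb 2 (3 * (d : ℝ) / 4) := by
    rw [← l4]
    exact Real.logb_le_logb_of_le (by norm_num) (by linarith) (by linarith)
  have h5 : 3 * (d : ℝ) / 4 * (Real.logb 2 d - 1) ≤
      3 * (d : ℝ) / 4 * Real.logb 2 (3 * (d : ℝ) / 4) :=
    mul_le_mul_of_nonneg_left h4 (by linarith)
  have h3 : Mw d = d * Real.logb 2 d / 16384 := rfl
  have h6 : Mw (d - 2 * q - 1) = ((d - 2 * q - 1 : ℕ) : ℝ) *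
    Real.logb 2 ((d - 2 * q - 1 : ℕ) : ℝ) / 16384 := rfl
  rw [h3, h6]
  have h7 : (10 : ℝ) * (d / 4 - 5) ≤ Real.logb 2 d * (d / 4 - 5) :=
    mul_le_mul_of_nonneg_right l1 (by linarith)
  nlinarith

/-- **Paterson–Valiant for systems.** -/
theorem pv (d : ℕ) : ∀ (V : Finset ℕ) (a b : ℕ → Option ℕ)
    (G : ℕ → (Fin n → Bool) → Bool → Bool → Bool) (val : ℕ → BF n) (L : ℕ),
    IsSys V a b G val L → (sysWires V a b : ℝ) < Mw d → ∀ v ∈ V, Dp (val v) (L + d) := by
  classical
  induction d using Nat.strong_induction_on with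
  | _ d ih =>
  intro V a b G val L h hw v hv
  by_cases hd : d < 1024
  · -- no wires
    have h0 : sysWires V a b = 0 := by
      have : (sysWires V a b : ℝ) < 1 := hw.trans (Mw_small hd)
      have : sysWires V a b < 1 := by exact_mod_cast this
      omega
    unfold sysWires at h0
    rw [Finset.sum_eq_zero_iff] at h0
    have h1 := h0 v hv
    have ha : a v = none := by
      by_contra hc
      simp [oc, hc] at h1
    have hb : b v = none := by
      by_contra hc
      simp [oc, hc] at h1
    refine ((h.dp v hv false false).mono (Nat.le_add_right L d)).congr fun x => ?_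
    rw [h.val_eq v hv x, ha, hb]
    rfl
  push Not at hd
  set t := d / 2 with ht
  set Y := V.filter (fun v => ¬ Dp (val v) (L + t)) with hY
  have hYV : Y ⊆ V := Finset.filter_subset _ _
  have hout : ∀ u ∈ V, u ∉ Y → Dp (val u) (L + t) := by
    intro u hu hu'
    by_contra hc
    exact hu' (Finset.mem_filter.2 ⟨hu, hc⟩)
  by_cases hvY : v ∈ Y
  swap
  · exact (hout v hv hvY).mono (by omega)
  have hne : Y.Nonempty := ⟨v, hvY⟩
  set y := Y.min' hne with hy
  have hyY : y ∈ Y := Finset.min'_mem _ _
  set Z := V.filter (· < y) with hZ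
  have hZout : ∀ u ∈ Z, u ∉ Y := by
    intro u hu huY
    have := Finset.min'_le _ _ huY
    have h2 := (Finset.mem_filter.1 hu).2
    omega
  -- the first part has many wires
  have hZw : Mw (t - 4) ≤ sysWires Z a b := by
    by_contra hc
    push Not at hc
    have hsys : IsSys Z a b G val L := h.restrict
    have hdp := ih (t - 4) (by omega) Z a b G val L hsys hc
    have hmem := Finset.mem_filter.1 hyY
    apply hmem.2
    have key : ∀ o : Option ℕ, (∀ u, o = some u → u ∈ V ∧ u < y) →
        Dp (fun x => arg val x o) (L + (t - 4)) := by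
      intro o ho
      cases o with
      | none => exact Dp.const _ _
      | some u =>
        have := ho u rfl
        exact hdp u (Finset.mem_filter.2 ⟨this.1, this.2⟩)
    have h1 := Dp.comb (G := fun x s t => G y x s t) (m := L + (t - 4))
      (fun s t' => (h.dp y hmem.1 s t').mono (by omega))
      (key (a y) (h.lta y hmem.1)) (key (b y) (h.ltb y hmem.1))
    refine (h1.mono (by omega)).congr fun x => ?_
    exact (h.val_eq y hmem.1 x).symm
  -- counting
  have hcount : sysWires Z a b + ∑ v ∈ Y, (oc (a v) + oc (b v)) ≤ sysWires V a b := by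
    unfold sysWires
    rw [← Finset.sum_union]
    · apply Finset.sum_le_sum_of_subset
      intro u hu
      rcases Finset.mem_union.1 hu with hu | hu
      · exact (Finset.mem_filter.1 hu).1
      · exact hYV hu
    · rw [Finset.disjoint_left]
      exact fun u hu huY => hZout u hu huY
  set q := ∑ v ∈ Y, (cr Y (a v) + cr Y (b v)) with hq
  have hsplit : ∑ v ∈ Y, (oc (a v) + oc (b v)) =
      sysWires Y (fun v => fil Y (a v)) (fun v => fil Y (b v)) + q := by
    unfold sysWires
    rw [hq, ← Finset.sum_add_distrib]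
    apply Finset.sum_congr rfl
    intro u _
    rw [oc_eq Y (a u), oc_eq Y (b u)]
    ring
  set W := sysWires Y (fun v => fil Y (a v)) (fun v => fil Y (b v)) with hW
  have htot : (sysWires Z a b : ℝ) + W + q ≤ sysWires V a b := by
    rw [hsplit] at hcount
    have : sysWires Z a b + W + q ≤ sysWires V a b := by omega
    exact_mod_cast this
  by_cases hcase : d ≤ 16 * q
  · -- many crossing wires
    have hA := Mw_A hd
    have hq' : (d : ℝ) / 16 ≤ q := by
      have : (d : ℝ) ≤ 16 * q := by exact_mod_cast hcase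
      linarith
    have hlt : (W : ℝ) < Mw (d - t - 4) := by linarith
    have hsys := h.cutA hYV (m := L + t) (by omega) hout
    have := ih (d - t - 4) (by omega) Y _ _ _ val (L + t + 4) hsys hlt v hvY
    exact this.mono (by omega)
  · -- few crossing wires
    push Not at hcase
    have hB := Mw_B hd hcase
    have hlt : (W : ℝ) < Mw (d - 2 * q - 1) := by
      have : (0 : ℝ) ≤ q := by positivity
      linarith
    set Q := Y.biUnion (fun v => crs Y (a v) ∪ crs Y (b v)) with hQ
    have hQcard : Q.card ≤ q := by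
      refine Finset.card_biUnion_le.trans ?_
      apply Finset.sum_le_sum
      intro u _
      refine (Finset.card_union_le _ _).trans ?_
      rw [card_crs, card_crs]
    have hQV : ∀ u ∈ Q, u ∈ V ∧ u ∉ Y := by
      intro u hu
      rw [hQ, Finset.mem_biUnion] at hu
      obtain ⟨w, hw1, hw2⟩ := hu
      rcases Finset.mem_union.1 hw2 with h1 | h1
      · cases haw : a w with
        | none => rw [haw] at h1; simp [crs] at h1
        | some z =>
          rw [haw] at h1
          by_cases hz : z ∈ Y
          · simp [crs, hz] at h1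
          · simp [crs, hz] at h1
            subst h1
            exact ⟨(h.lta w (hYV hw1) u haw).1, hz⟩
      · cases hbw : b w with
        | none => rw [hbw] at h1; simp [crs] at h1
        | some z =>
          rw [hbw] at h1
          by_cases hz : z ∈ Y
          · simp [crs, hz] at h1
          · simp [crs, hz] at h1
            subst h1
            exact ⟨(h.ltb w (hYV hw1) u hbw).1, hz⟩
    have hQa : ∀ v ∈ Y, ∀ u, a v = some u → u ∉ Y → u ∈ Q := by
      intro w hw u hu huY
      rw [hQ, Finset.mem_biUnion]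
      exact ⟨w, hw, Finset.mem_union_left _ (by simp [hu, crs, huY])⟩
    have hQb : ∀ v ∈ Y, ∀ u, b v = some u → u ∉ Y → u ∈ Q := by
      intro w hw u hu huY
      rw [hQ, Finset.mem_biUnion]
      exact ⟨w, hw, Finset.mem_union_right _ (by simp [hu, crs, huY])⟩
    have hassign := Dp.assign val (L + (d - 2 * q - 1)) Q
      (fun α x => ev Y a b G α x v)
      (fun α => ih (d - 2 * q - 1) (by omega) Y _ _ _ _ L (h.cutB hYV α) hlt v hvY)
      (fun u hu => (hout u (hQV u hu).1 (hQV u hu).2).mono (by omega))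
    refine (hassign.mono (by omega)).congr fun x => ?_
    exact h.ev_eq hYV x hQa hQb v hvY

end Pool.Agent.H540R2
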