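import Mathlib
import Pool.Agent.H540R2.PV

/-!
# Kernelization of a circuit by its fan-out excess
-/

set_option autoImplicit false

namespace Pool.Agent.H540R2

variable {n : ℕ}

/-- first operand -/
def Gate.fst : Gate n → Node n
  | .and a _ => a
  | .or a _ => a
  | .not a => a

/-- second operand (a constant for NOT) -/
def Gate.snd : Gate n → Node n
  | .and _ b => b
  | .or _ b => b
  | .not _ => .const false

/-- the operation -/
def Gate.op : Gate n → Bool → Bool → Bool
  | .and _ _ => fun s t => s && t
  | .or _ _ => fun s t => s || t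
  | .not _ => fun s _ => !s

lemma Gate.eval_eq (g : Gate n) (x : Fin n → Bool) (v : ℕ → Bool) :
    g.eval x v = g.op (g.fst.eval x v) (g.snd.eval x v) := by
  cases g <;> rfl

lemma Gate.wires_eq (g : Gate n) (j : ℕ) : g.wires j = g.fst.wires j + g.snd.wires j := by
  cases g <;> rfl

lemma Gate.sz_op (g : Gate n) {p q : BF n} {s t : ℕ} (hp : Sz p s) (hq : Sz q t) :
    Sz (fun x => g.op (p x) (q x)) (s + t + 1) := by
  cases g with
  | and a b => exact hp.and hq
  | or a b => exact hp.or hq
  | not a => exact hp.not.mono (by omega)

/-- extension of a function on gates to nodes -/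
def Node.lift {α : Type*} (x : Fin n → Bool) (c : Bool → α) (f : ℕ → α) : Node n → α
  | .var i => c (x i)
  | .const b => c b
  | .gate j => f j

variable (C : Circuit n)

namespace Circuit

lemma fst_lt {i : ℕ} (hi : i < C.size) {j : ℕ} (h : (C.gate i).fst = .gate j) : j < i := by
  apply C.gate_lt i hi j
  rw [Gate.wires_eq, h]
  simp [Node.wires]

lemma snd_lt {i : ℕ} (hi : i < C.size) {j : ℕ} (h : (C.gate i).snd = .gate j) : j < i := by
  apply C.gate_lt i hi j
  rw [Gate.wires_eq, h]
  simp [Node.wires]

lemma val_eq {i : ℕ} (hi : i < C.size) (x : Fin n → Bool) :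
    C.val x i = (C.gate i).op ((C.gate i).fst.eval x (C.val x))
      ((C.gate i).snd.eval x (C.val x)) := by
  rw [val, Gate.eval_eq]
  congr 1
  · cases h : (C.gate i).fst with
    | var _ => rfl
    | const _ => rfl
    | gate j => simp [Node.eval, C.fst_lt hi h]
  · cases h : (C.gate i).snd with
    | var _ => rfl
    | const _ => rfl
    | gate j => simp [Node.eval, C.snd_lt hi h]

/-- the gate has a branching output -/
def Branch (i : ℕ) : Prop := 2 ≤ C.fanout i

instance (i : ℕ) : Decidable (C.Branch i) := by unfold Branch; infer_instance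

/-- The head of a gate (as seen by its consumers): a kernel gate is its own head, otherwise the
head of the operand that has one. -/
def head : ℕ → Option ℕ
  | i =>
    let ha : Option ℕ := match (C.gate i).fst with
      | .gate j => if _h : j < i then head j else none
      | _ => none
    let hb : Option ℕ := match (C.gate i).snd with
      | .gate j => if _h : j < i then head j else none
      | _ => none
    if C.Branch i ∨ (ha ≠ none ∧ hb ≠ none) then some i else (if ha = none then hb else ha)
termination_by i => i

/-- head of a node -/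
def nhead : Node n → Option ℕ
  | .gate j => C.head j
  | _ => none

/-- kernel gates -/
def Kern (i : ℕ) : Prop :=
  C.Branch i ∨ (C.nhead (C.gate i).fst ≠ none ∧ C.nhead (C.gate i).snd ≠ none)

instance (i : ℕ) : Decidable (C.Kern i) := by unfold Kern; infer_instance

lemma head_eq {i : ℕ} (hi : i < C.size) :
    C.head i = if C.Kern i then some i else
      (if C.nhead (C.gate i).fst = none then C.nhead (C.gate i).snd
        else C.nhead (C.gate i).fst) := by
  rw [head]
  have h1 : (match (C.gate i).fst with
      | .gate j => if _h : j < i then C.head j else none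
      | _ => none) = C.nhead (C.gate i).fst := by
    cases h : (C.gate i).fst with
    | var _ => rfl
    | const _ => rfl
    | gate j => simp [nhead, C.fst_lt hi h]
  have h2 : (match (C.gate i).snd with
      | .gate j => if _h : j < i then C.head j else none
      | _ => none) = C.nhead (C.gate i).snd := by
    cases h : (C.gate i).snd with
    | var _ => rfl
    | const _ => rfl
    | gate j => simp [nhead, C.snd_lt hi h]
  simp only [h1, h2]
  rfl

/-- the value of a gate as a function of the value of its head -/
def fn (s : Bool) (x : Fin n → Bool) : ℕ → Bool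
  | i => if C.Kern i then s else
      (C.gate i).op
        (match (C.gate i).fst with
          | .var k => x k
          | .const b => b
          | .gate j => if _h : j < i then fn s x j else false)
        (match (C.gate i).snd with
          | .var k => x k
          | .const b => b
          | .gate j => if _h : j < i then fn s x j else false)
termination_by i => i

/-- the value of a node as a function of the value of its head -/
def nfn (s : Bool) (x : Fin n → Bool) (a : Node n) : Bool := a.eval x (C.fn s x)

lemma fn_kern {i : ℕ} (h : C.Kern i) (s : Bool) (x : Fin n → Bool) : C.fn s x i = s := by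
  rw [fn]; simp [h]

lemma fn_eq {i : ℕ} (hi : i < C.size) (h : ¬ C.Kern i) (s : Bool) (x : Fin n → Bool) :
    C.fn s x i = (C.gate i).op (C.nfn s x (C.gate i).fst) (C.nfn s x (C.gate i).snd) := by
  rw [fn]
  simp only [h, if_false]
  congr 1
  · cases h : (C.gate i).fst with
    | var _ => rfl
    | const _ => rfl
    | gate j => simp [nfn, Node.eval, C.fst_lt hi h]
  · cases h : (C.gate i).snd with
    | var _ => rfl
    | const _ => rfl
    | gate j => simp [nfn, Node.eval, C.snd_lt hi h]

/-- A gate without a head is a function of `x` alone. -/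
lemma fn_of_head_none {i : ℕ} (hi : i < C.size) (h : C.head i = none) (s t : Bool)
    (x : Fin n → Bool) : C.fn s x i = C.fn t x i := by
  induction i using Nat.strong_induction_on with
  | _ i ih =>
    have h' := h
    rw [C.head_eq hi] at h'
    by_cases hk : C.Kern i
    · simp [hk] at h'
    · simp only [hk, if_false] at h'
      have ha : C.nhead (C.gate i).fst = none := by
        by_contra hc
        simp [hc] at h'
      have hb : C.nhead (C.gate i).snd = none := by
        simpa [ha] using h'
      rw [C.fn_eq hi hk, C.fn_eq hi hk]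
      congr 1
      · cases hf : (C.gate i).fst with
        | var _ => rfl
        | const _ => rfl
        | gate j =>
          have hj := C.fst_lt hi hf
          rw [hf] at ha
          exact ih j hj (hj.trans hi) ha
      · cases hf : (C.gate i).snd with
        | var _ => rfl
        | const _ => rfl
        | gate j =>
          have hj := C.snd_lt hi hf
          rw [hf] at hb
          exact ih j hj (hj.trans hi) hb

lemma nfn_of_nhead_none {a : Node n} (ha : ∀ j, a = .gate j → j < C.size)
    (h : C.nhead a = none) (s t : Bool) (x : Fin n → Bool) : C.nfn s x a = C.nfn t x a := by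
  cases a with
  | var _ => rfl
  | const _ => rfl
  | gate j => exact C.fn_of_head_none (ha j rfl) h s t x

/-- value function of gates, as `BF` -/
def vf (i : ℕ) : BF n := fun x => C.val x i

lemma val_eq_fn {i : ℕ} (hi : i < C.size) (x : Fin n → Bool) :
    C.val x i = C.fn (arg C.vf x (C.head i)) x i := by
  induction i using Nat.strong_induction_on with
  | _ i ih =>
    by_cases hk : C.Kern i
    · rw [C.fn_kern hk, C.head_eq hi]
      simp [hk, arg, vf]
    · have hnode : ∀ a : Node n, (∀ j, a = .gate j → j < i) →
          a.eval x (C.val x) = C.nfn (arg C.vf x (C.nhead a)) x a := by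
        intro a ha
        cases a with
        | var _ => rfl
        | const _ => rfl
        | gate j => exact ih j (ha j rfl) ((ha j rfl).trans hi)
      have h1 := hnode _ (fun j h => C.fst_lt hi h)
      have h2 := hnode _ (fun j h => C.snd_lt hi h)
      rw [C.val_eq hi x, h1, h2, C.fn_eq hi hk, C.head_eq hi]
      simp only [hk, if_false]
      have hs1 : ∀ j, (C.gate i).fst = .gate j → j < C.size :=
        fun j h => (C.fst_lt hi h).trans hi
      have hs2 : ∀ j, (C.gate i).snd = .gate j → j < C.size :=
        fun j h => (C.snd_lt hi h).trans hi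
      by_cases ha : C.nhead (C.gate i).fst = none
      · simp only [ha, if_true]
        congr 1
        exact C.nfn_of_nhead_none hs1 ha _ _ x
      · have hb : C.nhead (C.gate i).snd = none := by
          by_contra hc
          exact hk (Or.inr ⟨ha, hc⟩)
        simp only [ha, if_false]
        congr 1
        exact C.nfn_of_nhead_none hs2 hb _ _ x

lemma nval_eq {a : Node n} (ha : ∀ j, a = .gate j → j < C.size) (x : Fin n → Bool) :
    a.eval x (C.val x) = C.nfn (arg C.vf x (C.nhead a)) x a := by
  cases a with
  | var _ => rfl
  | const _ => rfl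
  | gate j => exact C.val_eq_fn (ha j rfl) x

lemma head_some {i u : ℕ} (hi : i < C.size) (h : C.head i = some u) : C.Kern u ∧ u ≤ i := by
  induction i using Nat.strong_induction_on with
  | _ i ih =>
    rw [C.head_eq hi] at h
    by_cases hk : C.Kern i
    · simp [hk] at h; subst h; exact ⟨hk, le_rfl⟩
    · simp only [hk, if_false] at h
      have hnode : ∀ a : Node n, (∀ j, a = .gate j → j < i) → C.nhead a = some u →
          C.Kern u ∧ u ≤ i := by
        intro a ha hau
        cases a with
        | var _ => simp [nhead] at hau
        | const _ => simp [nhead] at hau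
        | gate j =>
          have hj := ha j rfl
          have := ih j hj (hj.trans hi) hau
          exact ⟨this.1, this.2.trans hj.le⟩
      split_ifs at h with ha
      · exact hnode _ (fun j h => C.snd_lt hi h) h
      · exact hnode _ (fun j h => C.fst_lt hi h) h

/-! ### sizes -/

/-- size of the formula of `fn` -/
def fsz : ℕ → ℕ
  | i => if C.Kern i then 0 else
      (match (C.gate i).fst with
        | .gate j => if _h : j < i then fsz j else 0
        | _ => 0) +
      (match (C.gate i).snd with
        | .gate j => if _h : j < i then fsz j else 0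
        | _ => 0) + 1
termination_by i => i

/-- size for nodes -/
def nfsz : Node n → ℕ
  | .gate j => C.fsz j
  | _ => 0

lemma fsz_kern {i : ℕ} (h : C.Kern i) : C.fsz i = 0 := by
  rw [fsz]; simp [h]

lemma fsz_eq {i : ℕ} (hi : i < C.size) (h : ¬ C.Kern i) :
    C.fsz i = C.nfsz (C.gate i).fst + C.nfsz (C.gate i).snd + 1 := by
  rw [fsz]
  simp only [h, if_false]
  congr 2
  · cases h : (C.gate i).fst with
    | var _ => rfl
    | const _ => rfl
    | gate j => simp [nfsz, C.fst_lt hi h]
  · cases h : (C.gate i).snd with
    | var _ => rfl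
    | const _ => rfl
    | gate j => simp [nfsz, C.snd_lt hi h]

lemma sz_fn {i : ℕ} (hi : i < C.size) (s : Bool) : Sz (fun x => C.fn s x i) (C.fsz i) := by
  induction i using Nat.strong_induction_on with
  | _ i ih =>
    by_cases hk : C.Kern i
    · exact (Sz.const s _).congr fun x => (C.fn_kern hk s x).symm
    · have hnode : ∀ a : Node n, (∀ j, a = .gate j → j < i) →
          Sz (fun x => C.nfn s x a) (C.nfsz a) := by
        intro a ha
        cases a with
        | var k => exact Sz.var k _
        | const b => exact Sz.const b _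
        | gate j => exact ih j (ha j rfl) ((ha j rfl).trans hi)
      rw [C.fsz_eq hi hk]
      refine ((C.gate i).sz_op (hnode _ (fun j h => C.fst_lt hi h))
        (hnode _ (fun j h => C.snd_lt hi h))).congr fun x => ?_
      rw [C.fn_eq hi hk]

lemma sz_nfn {a : Node n} (ha : ∀ j, a = .gate j → j < C.size) (s : Bool) :
    Sz (fun x => C.nfn s x a) (C.nfsz a) := by
  cases a with
  | var k => exact Sz.var k _
  | const b => exact Sz.const b _
  | gate j => exact C.sz_fn (ha j rfl) s

/-- wires of gates `< k` from gate `u` -/
lemma node_sum (f : ℕ → ℕ) (g : Node n → ℕ) (hg : ∀ j, g (.gate j) = f j)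
    (hv : ∀ i, g (.var i) = 0) (hc : ∀ b, g (.const b) = 0) {a : Node n} {k : ℕ}
    (ha : ∀ j, a = .gate j → j < k) : g a = ∑ u ∈ Finset.range k, f u * a.wires u := by
  cases a with
  | var i => simp [hv, Node.wires]
  | const b => simp [hc, Node.wires]
  | gate j =>
    rw [hg]
    rw [Finset.sum_eq_single_of_mem j (Finset.mem_range.2 (ha j rfl))]
    · simp [Node.wires]
    · intro u _ hu
      simp [Node.wires, hu.symm]

lemma gate_sum (f : ℕ → ℕ) (g : Node n → ℕ) (hg : ∀ j, g (.gate j) = f j)
    (hv : ∀ i, g (.var i) = 0) (hc : ∀ b, g (.const b) = 0) {k : ℕ} (hk : k ≤ C.size) :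
    ∑ i ∈ Finset.range k, (g (C.gate i).fst + g (C.gate i).snd) =
      ∑ u ∈ Finset.range k, f u * ∑ i ∈ Finset.range k, (C.gate i).wires u := by
  simp only [Finset.mul_sum]
  rw [Finset.sum_comm]
  apply Finset.sum_congr rfl
  intro i hi
  have hi' := Finset.mem_range.1 hi
  have his : i < C.size := lt_of_lt_of_le hi' hk
  rw [node_sum f g hg hv hc (a := (C.gate i).fst) (k := k)
    (fun j h => (C.fst_lt his h).trans hi'),
    node_sum f g hg hv hc (a := (C.gate i).snd) (k := k)
    (fun j h => (C.snd_lt his h).trans hi'), ← Finset.sum_add_distrib]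
  apply Finset.sum_congr rfl
  intro u _
  rw [Gate.wires_eq]
  ring

lemma fsz_le {i : ℕ} (hi : i < C.size) : C.fsz i ≤ i + 1 := by
  have hk : i + 1 ≤ C.size := hi
  have h1 := C.gate_sum C.fsz C.nfsz (fun _ => rfl) (fun _ => rfl) (fun _ => rfl) hk
  have h2 : ∑ j ∈ Finset.range (i + 1), C.fsz j ≤
      ∑ j ∈ Finset.range (i + 1), (C.nfsz (C.gate j).fst + C.nfsz (C.gate j).snd + 1) := by
    apply Finset.sum_le_sum
    intro j hj
    have hj' := Finset.mem_range.1 hj
    by_cases hk : C.Kern j
    · rw [C.fsz_kern hk]; omega
    · rw [C.fsz_eq (by omega) hk]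
  rw [Finset.sum_add_distrib, h1] at h2
  have h3 : ∑ u ∈ Finset.range (i + 1), C.fsz u * ∑ j ∈ Finset.range (i + 1), (C.gate j).wires u
      ≤ ∑ u ∈ Finset.range i, C.fsz u := by
    rw [Finset.sum_range_succ]
    have hz : ∑ j ∈ Finset.range (i + 1), (C.gate j).wires i = 0 := by
      apply Finset.sum_eq_zero
      intro j hj
      by_contra hc
      have := C.gate_lt j (by have := Finset.mem_range.1 hj; omega) i hc
      have := Finset.mem_range.1 hj
      omega
    rw [hz, mul_zero, add_zero]
    apply Finset.sum_le_sum
    intro u hu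
    by_cases hk : C.Kern u
    · rw [C.fsz_kern hk]; simp
    · have hb : ¬ C.Branch u := fun h => hk (Or.inl h)
      have hf : C.fanout u ≤ 1 := by unfold Branch at hb; omega
      have hle : ∑ j ∈ Finset.range (i + 1), (C.gate j).wires u ≤ C.fanout u := by
        unfold fanout
        apply Finset.sum_le_sum_of_subset
        intro j hj
        have := Finset.mem_range.1 hj
        exact Finset.mem_range.2 (by omega)
      calc C.fsz u * ∑ j ∈ Finset.range (i + 1), (C.gate j).wires u
          ≤ C.fsz u * 1 := Nat.mul_le_mul_left _ (hle.trans hf)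
        _ = C.fsz u := mul_one _
  rw [Finset.sum_range_succ] at h2
  simp at h2
  omega

lemma nfsz_le {a : Node n} (ha : ∀ j, a = .gate j → j < C.size) : C.nfsz a ≤ C.size := by
  cases a with
  | var k => exact Nat.zero_le _
  | const b => exact Nat.zero_le _
  | gate j =>
    have := C.fsz_le (ha j rfl)
    have := ha j rfl
    show C.fsz j ≤ C.size
    omega

/-! ### the kernel system -/

/-- indicator of having a head -/
def hh (i : ℕ) : ℕ := if C.head i = none then 0 else 1

/-- indicator of having a head -/
def nh (a : Node n) : ℕ := if C.nhead a = none then 0 else 1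

/-- the kernel gates -/
def kern : Finset ℕ := (Finset.range C.size).filter (fun i => C.Kern i)

lemma isSys {k : ℕ} (hk : 2 * C.size + 1 < 2 ^ k) :
    IsSys C.kern (fun i => C.nhead (C.gate i).fst) (fun i => C.nhead (C.gate i).snd)
      (fun i x s t => (C.gate i).op (C.nfn s x (C.gate i).fst) (C.nfn t x (C.gate i).snd))
      C.vf (3 * k) where
  val_eq v hv x := by
    have hv' := Finset.mem_range.1 (Finset.mem_filter.1 hv).1
    show C.val x v = _
    rw [C.val_eq hv' x, C.nval_eq (fun j h => (C.fst_lt hv' h).trans hv') x,
      C.nval_eq (fun j h => (C.snd_lt hv' h).trans hv') x]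
  dp v hv s t := by
    have hv' := Finset.mem_range.1 (Finset.mem_filter.1 hv).1
    have h1 := C.sz_nfn (a := (C.gate v).fst) (fun j h => (C.fst_lt hv' h).trans hv') s
    have h2 := C.sz_nfn (a := (C.gate v).snd) (fun j h => (C.snd_lt hv' h).trans hv') t
    have h3 := C.nfsz_le (a := (C.gate v).fst) (fun j h => (C.fst_lt hv' h).trans hv')
    have h4 := C.nfsz_le (a := (C.gate v).snd) (fun j h => (C.snd_lt hv' h).trans hv')
    exact ((C.gate v).sz_op h1 h2).dp (by omega)
  lta v hv u hu := by
    have hv' := Finset.mem_range.1 (Finset.mem_filter.1 hv).1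
    cases hf : (C.gate v).fst with
    | var _ => rw [hf] at hu; simp [nhead] at hu
    | const _ => rw [hf] at hu; simp [nhead] at hu
    | gate j =>
      rw [hf] at hu
      have hj := C.fst_lt hv' hf
      have := C.head_some (hj.trans hv') hu
      exact ⟨Finset.mem_filter.2 ⟨Finset.mem_range.2 (by omega), this.1⟩, by omega⟩
  ltb v hv u hu := by
    have hv' := Finset.mem_range.1 (Finset.mem_filter.1 hv).1
    cases hf : (C.gate v).snd with
    | var _ => rw [hf] at hu; simp [nhead] at hu
    | const _ => rw [hf] at hu; simp [nhead] at hu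
    | gate j =>
      rw [hf] at hu
      have hj := C.snd_lt hv' hf
      have := C.head_some (hj.trans hv') hu
      exact ⟨Finset.mem_filter.2 ⟨Finset.mem_range.2 (by omega), this.1⟩, by omega⟩

lemma kern_wires :
    sysWires C.kern (fun i => C.nhead (C.gate i).fst) (fun i => C.nhead (C.gate i).snd) ≤
      4 * C.excess := by
  have h1 := C.gate_sum C.hh C.nh (fun _ => rfl) (fun _ => rfl) (fun _ => rfl) le_rfl
  -- split into kernel and non-kernel gates
  set I : ℕ → ℕ := fun i => C.nh (C.gate i).fst + C.nh (C.gate i).snd with hI
  set K := C.kern with hK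
  set N := (Finset.range C.size).filter (fun i => ¬ C.Kern i) with hN
  have hsplit : ∀ f : ℕ → ℕ, ∑ i ∈ Finset.range C.size, f i = ∑ i ∈ K, f i + ∑ i ∈ N, f i := by
    intro f
    exact (Finset.sum_filter_add_sum_filter_not _ _ _).symm
  have hw : sysWires K (fun i => C.nhead (C.gate i).fst) (fun i => C.nhead (C.gate i).snd) =
      ∑ i ∈ K, I i := rfl
  rw [hw]
  -- fan-out
  have h2 : ∑ u ∈ Finset.range C.size, C.hh u * ∑ i ∈ Finset.range C.size, (C.gate i).wires u ≤
      ∑ u ∈ Finset.range C.size, C.hh u + C.excess := by
    unfold excess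
    rw [← Finset.sum_add_distrib]
    apply Finset.sum_le_sum
    intro u _
    have hle : C.hh u ≤ 1 := by unfold hh; split_ifs <;> omega
    show C.hh u * C.fanout u ≤ C.hh u + (C.fanout u - 1)
    rcases Nat.le_one_iff_eq_zero_or_eq_one.1 hle with h | h
    · rw [h]; omega
    · rw [h]; omega
  have hN' : ∑ i ∈ N, C.hh i = ∑ i ∈ N, I i := by
    apply Finset.sum_congr rfl
    intro i hi
    obtain ⟨hi1, hi2⟩ := Finset.mem_filter.1 hi
    have hi1 := Finset.mem_range.1 hi1
    have hnk : ¬ (C.nhead (C.gate i).fst ≠ none ∧ C.nhead (C.gate i).snd ≠ none) :=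
      fun h => hi2 (Or.inr h)
    simp only [hh, hI, nh]
    rw [C.head_eq hi1]
    simp only [hi2, if_false]
    by_cases ha : C.nhead (C.gate i).fst = none
    · simp [ha]
    · have hb : C.nhead (C.gate i).snd = none := by
        by_contra hc; exact hnk ⟨ha, hc⟩
      simp [ha, hb]
  have hKc : ∑ i ∈ K, C.hh i = K.card := by
    rw [Finset.card_eq_sum_ones]
    apply Finset.sum_congr rfl
    intro i hi
    obtain ⟨hi1, hi2⟩ := Finset.mem_filter.1 hi
    have hi1 := Finset.mem_range.1 hi1
    unfold hh
    rw [C.head_eq hi1]
    simp [hi2]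
  have h3 : ∑ i ∈ K, I i ≤ K.card + C.excess := by
    have e1 := hsplit I
    have e2 := hsplit C.hh
    have e3 : ∑ i ∈ Finset.range C.size, I i = ∑ u ∈ Finset.range C.size,
        C.hh u * ∑ i ∈ Finset.range C.size, (C.gate i).wires u := h1
    omega
  -- branching gates
  set B := (Finset.range C.size).filter (fun i => C.Branch i) with hB
  have hBc : B.card ≤ C.excess := by
    unfold excess
    rw [Finset.card_eq_sum_ones]
    calc ∑ i ∈ B, 1 ≤ ∑ i ∈ B, (C.fanout i - 1) := by
          apply Finset.sum_le_sum
          intro i hi
          have := (Finset.mem_filter.1 hi).2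
          unfold Branch at this
          omega
      _ ≤ _ := Finset.sum_le_sum_of_subset (Finset.filter_subset _ _)
  have h4 : 2 * K.card ≤ ∑ i ∈ K, I i + 2 * B.card := by
    have hBK : B ⊆ K := by
      intro i hi
      obtain ⟨hi1, hi2⟩ := Finset.mem_filter.1 hi
      exact Finset.mem_filter.2 ⟨hi1, Or.inl hi2⟩
    have e1 : ∑ i ∈ K, I i = ∑ i ∈ K \ B, I i + ∑ i ∈ B, I i :=
      (Finset.sum_sdiff hBK).symm
    have e2 : 2 * (K \ B).card ≤ ∑ i ∈ K \ B, I i := by
      rw [Finset.card_eq_sum_ones, Finset.mul_sum]
      apply Finset.sum_le_sum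
      intro i hi
      obtain ⟨hi1, hi2⟩ := Finset.mem_sdiff.1 hi
      obtain ⟨hi3, hi4⟩ := Finset.mem_filter.1 hi1
      rcases hi4 with h | h
      · exact absurd (Finset.mem_filter.2 ⟨hi3, h⟩) hi2
      · simp only [hI, nh, h.1, h.2, if_false]; norm_num
    have e3 : (K \ B).card + B.card = K.card := Finset.card_sdiff_add_card_eq_card hBK
    omega
  omega

end Circuit

end Pool.Agent.H540R2
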