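import Mathlib
import Pool.Agent.H540R2.Kernel
import Pool.Agent.H540R2.Build

/-!
# Depth bound in terms of the fan-out excess
-/

set_option autoImplicit false

namespace Pool.Agent.H540R2

variable {n : ℕ}

/-- replace the gates in `A` by constants -/
def Node.sub (α : ℕ → Bool) (A : Finset ℕ) : Node n → Node n
  | .var i => .var i
  | .const b => .const b
  | .gate j => if j ∈ A then .const (α j) else .gate j

/-- replace the gates in `A` by constants -/
def Gate.sub (α : ℕ → Bool) (A : Finset ℕ) : Gate n → Gate n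
  | .and a b => .and (a.sub α A) (b.sub α A)
  | .or a b => .or (a.sub α A) (b.sub α A)
  | .not a => .not (a.sub α A)

lemma Node.wires_sub (α : ℕ → Bool) (A : Finset ℕ) (a : Node n) (j : ℕ) :
    (a.sub α A).wires j = if j ∈ A then 0 else a.wires j := by
  cases a with
  | var i => simp [Node.sub, Node.wires]
  | const b => simp [Node.sub, Node.wires]
  | gate i =>
    by_cases hi : i ∈ A
    · by_cases hj : j ∈ A
      · simp [Node.sub, Node.wires, hi, hj]
      · have : i ≠ j := fun h => hj (h ▸ hi)
        simp [Node.sub, Node.wires, hi, this]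
    · by_cases hj : j ∈ A
      · have : i ≠ j := fun h => hi (h ▸ hj)
        simp [Node.sub, Node.wires, hi, hj, this]
      · simp [Node.sub, Node.wires, hi, hj]

lemma Gate.wires_sub (α : ℕ → Bool) (A : Finset ℕ) (g : Gate n) (j : ℕ) :
    (g.sub α A).wires j = if j ∈ A then 0 else g.wires j := by
  cases g with
  | and a b => simp only [Gate.sub, Gate.wires, Node.wires_sub]; split_ifs <;> rfl
  | or a b => simp only [Gate.sub, Gate.wires, Node.wires_sub]; split_ifs <;> rfl
  | not a => simp only [Gate.sub, Gate.wires, Node.wires_sub]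

lemma Node.eval_sub (α : ℕ → Bool) (A : Finset ℕ) (a : Node n) (x : Fin n → Bool)
    (v : ℕ → Bool) :
    (a.sub α A).eval x v = a.eval x (fun j => if j ∈ A then α j else v j) := by
  cases a with
  | var i => rfl
  | const b => rfl
  | gate i => by_cases hi : i ∈ A <;> simp [Node.sub, Node.eval, hi]

lemma Gate.eval_sub (α : ℕ → Bool) (A : Finset ℕ) (g : Gate n) (x : Fin n → Bool)
    (v : ℕ → Bool) :
    (g.sub α A).eval x v = g.eval x (fun j => if j ∈ A then α j else v j) := by
  cases g <;> simp [Gate.sub, Gate.eval, Node.eval_sub]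

namespace Circuit

variable (C : Circuit n)

/-- replace the gates in `A` by constants -/
def sub (α : ℕ → Bool) (A : Finset ℕ) : Circuit n where
  size := C.size
  gate i := (C.gate i).sub α A
  out := C.out.sub α A
  gate_lt i hi j hj := by
    rw [Gate.wires_sub] at hj
    split_ifs at hj
    · exact absurd rfl hj
    · exact C.gate_lt i hi j hj
  out_lt j hj := by
    rw [Node.wires_sub] at hj
    split_ifs at hj
    · exact absurd rfl hj
    · exact C.out_lt j hj

lemma sub_fanout (α : ℕ → Bool) (A : Finset ℕ) (j : ℕ) :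
    (C.sub α A).fanout j = if j ∈ A then 0 else C.fanout j := by
  unfold fanout
  have h : ∀ i, ((C.sub α A).gate i).wires j = if j ∈ A then 0 else (C.gate i).wires j :=
    fun i => Gate.wires_sub α A _ j
  have hs : (C.sub α A).size = C.size := rfl
  simp only [h, hs]
  split_ifs <;> simp

lemma sub_excess (α : ℕ → Bool) (A : Finset ℕ) : (C.sub α A).excess = C.excessOff A := by
  unfold excess excessOff
  rw [Finset.sum_filter]
  apply Finset.sum_congr rfl
  intro j _
  rw [sub_fanout]
  by_cases h : j ∈ A <;> simp [h]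

lemma sub_val (α : ℕ → Bool) (A : Finset ℕ) (x : Fin n → Bool) : ∀ i < C.size,
    (∀ w ∈ A, w < i → α w = C.val x w) → (C.sub α A).val x i = C.val x i := by
  intro i
  induction i using Nat.strong_induction_on with
  | _ i ih =>
    intro hi hα
    rw [(C.sub α A).val_gate hi, C.val_gate hi]
    have h : (C.sub α A).gate i = (C.gate i).sub α A := rfl
    rw [h, Gate.eval_sub]
    apply Gate.eval_congr
    intro j hj
    have hji := C.gate_lt i hi j hj
    by_cases hjA : j ∈ A
    · simp only [hjA, if_true]
      exact hα j hjA hji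
    · simp only [hjA, if_false]
      exact ih j hji (hji.trans hi) (fun w hw hwj => hα w hw (hwj.trans hji))

end Circuit

lemma Dp.chain (val : ℕ → BF n) (m : ℕ) (A : Finset ℕ) :
    (∀ u ∈ A, ∃ Hu : (ℕ → Bool) → BF n, (∀ α, Dp (Hu α) m) ∧
      ∀ x, val u x = Hu (fun w => if w ∈ A ∧ w < u then val w x else false) x) →
    ∀ H : (ℕ → Bool) → BF n, (∀ α, Dp (H α) m) →
    Dp (fun x => H (fun w => if w ∈ A then val w x else false) x) (m + 2 * A.card) := by
  induction A using Finset.induction_on_max with
  | empty => intro _ H hH; simpa using hH (fun _ => false)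
  | insert u A hmax ih =>
    intro hA H hH
    have hu : u ∉ A := fun h => lt_irrefl _ (hmax u h)
    have hA' : ∀ v ∈ A, ∃ Hu : (ℕ → Bool) → BF n, (∀ α, Dp (Hu α) m) ∧
        ∀ x, val v x = Hu (fun w => if w ∈ A ∧ w < v then val w x else false) x := by
      intro v hv
      obtain ⟨Hv, h1, h2⟩ := hA v (Finset.mem_insert_of_mem hv)
      refine ⟨Hv, h1, fun x => ?_⟩
      rw [h2 x]
      congr 1
      funext w
      have : (w ∈ insert u A ∧ w < v) ↔ (w ∈ A ∧ w < v) := by
        constructor
        · rintro ⟨h3, h4⟩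
          rcases Finset.mem_insert.1 h3 with h5 | h5
          · subst h5; exact absurd (hmax v hv) (by omega)
          · exact ⟨h5, h4⟩
        · rintro ⟨h3, h4⟩
          exact ⟨Finset.mem_insert_of_mem h3, h4⟩
      simp only [this]
    have ih' := ih hA'
    have hval : Dp (val u) (m + 2 * A.card) := by
      obtain ⟨Hu, h1, h2⟩ := hA u (Finset.mem_insert_self _ _)
      refine (ih' Hu h1).congr fun x => ?_
      rw [h2 x]
      congr 1
      funext w
      have : (w ∈ insert u A ∧ w < u) ↔ w ∈ A := by
        constructor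
        · rintro ⟨h3, h4⟩
          rcases Finset.mem_insert.1 h3 with h5 | h5
          · omega
          · exact h5
        · intro h3
          exact ⟨Finset.mem_insert_of_mem h3, hmax w h3⟩
      simp only [this]
    have h1 : ∀ c : Bool, Dp (fun x => H (Function.update
        (fun u => if u ∈ A then val u x else false) u c) x) (m + 2 * A.card) := fun c =>
      ih' (fun α => H (Function.update α u c)) (fun α => hH _)
    have h2 := hval.mux (h1 true) (h1 false)
    rw [Finset.card_insert_of_notMem hu]
    refine (h2.mono (by omega)).congr fun x => ?_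
    have key : ∀ c, val u x = c → Function.update (fun u => if u ∈ A then val u x else false) u c
        = fun w => if w ∈ insert u A then val w x else false := by
      intro c hc
      funext w
      by_cases hw : w = u
      · subst hw; simp [hc]
      · simp [Finset.mem_insert, hw]
    have e : H (fun w => if w ∈ insert u A then val w x else false) x =
        H (Function.update (fun u => if u ∈ A then val u x else false) u (val u x)) x := by
      rw [key _ rfl]
    show (if val u x = true then _ else _) = _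
    rw [e]
    cases val u x <;> rfl

namespace Circuit

variable (C : Circuit n)

/-- The kernel bound: every gate has small depth complexity. -/
lemma dp_gate {k d : ℕ} (hk : 2 * C.size + 1 < 2 ^ k) (hd : (4 * C.excess : ℝ) < Mw d)
    {i : ℕ} (hi : i < C.size) : Dp (C.vf i) (3 * k + d + 2) := by
  have hs := C.isSys hk
  have hw : (sysWires C.kern (fun i => C.nhead (C.gate i).fst)
      (fun i => C.nhead (C.gate i).snd) : ℝ) < Mw d := by
    refine lt_of_le_of_lt ?_ hd
    exact_mod_cast C.kern_wires
  have hpv := pv d _ _ _ _ _ _ hs hw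
  have hfn : ∀ s, Dp (fun x => C.fn s x i) (3 * k) := fun s =>
    (C.sz_fn hi s).dp (by have := C.fsz_le hi; omega)
  have hhead : Dp (fun x => arg C.vf x (C.head i)) (3 * k + d) := by
    cases hh : C.head i with
    | none => exact Dp.const _ _
    | some u =>
      have := C.head_some hi hh
      exact hpv u (Finset.mem_filter.2 ⟨Finset.mem_range.2 (by omega), this.1⟩)
  have h1 := hhead.mux ((hfn true).mono (Nat.le_add_right _ d))
    ((hfn false).mono (Nat.le_add_right _ d))
  refine h1.congr fun x => ?_
  show _ = C.val x i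
  rw [C.val_eq_fn hi x]
  cases arg C.vf x (C.head i) <;> simp

lemma dp_eval {k d : ℕ} (hk : 2 * C.size + 1 < 2 ^ k) (hd : (4 * C.excess : ℝ) < Mw d) :
    Dp C.eval (3 * k + d + 2) := by
  cases ho : C.out with
  | var i => exact (Dp.var i _).congr fun x => by simp [eval, ho, Node.eval]
  | const b => exact (Dp.const b _).congr fun x => by simp [eval, ho, Node.eval]
  | gate j =>
    have hj : j < C.size := C.out_lt j (by simp [ho, Node.wires])
    exact (C.dp_gate hk hd hj).congr fun x => by simp [eval, ho, Node.eval, vf]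

/-- The bound with a set `A` of free gates. -/
lemma dp_eval_off (A : Finset ℕ) (hA : A ⊆ Finset.range C.size) {k d : ℕ}
    (hk : 2 * C.size + 1 < 2 ^ k) (hd : (4 * C.excessOff A : ℝ) < Mw d) :
    Dp C.eval (3 * k + d + 2 + 2 * A.card) := by
  have hd' : ∀ α, (4 * (C.sub α A).excess : ℝ) < Mw d := by
    intro α; rw [C.sub_excess]; exact hd
  have h1 : ∀ u ∈ A, ∃ Hu : (ℕ → Bool) → BF n, (∀ α, Dp (Hu α) (3 * k + d + 2)) ∧
      ∀ x, C.vf u x = Hu (fun w => if w ∈ A ∧ w < u then C.vf w x else false) x := by
    intro u hu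
    have hu' := Finset.mem_range.1 (hA hu)
    refine ⟨fun α => (C.sub α A).vf u, fun α => (C.sub α A).dp_gate hk (hd' α) hu', fun x => ?_⟩
    refine (C.sub_val _ A x u hu' ?_).symm
    intro w hw hwu
    simp [hw, hwu, vf]
  have h2 := Dp.chain C.vf (3 * k + d + 2) A h1 (fun α => (C.sub α A).eval)
    (fun α => (C.sub α A).dp_eval hk (hd' α))
  refine h2.congr fun x => ?_
  show (C.out.sub _ A).eval x _ = C.out.eval x _
  rw [Node.eval_sub]
  apply Node.eval_congr
  intro j hj
  have hjs := C.out_lt j hj
  by_cases hjA : j ∈ A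
  · simp [hjA, vf]
  · simp only [hjA, if_false]
    exact C.sub_val _ A x j hjs (fun w hw _ => by simp [hw, vf])

end Circuit

lemma logb_le_self {z : ℝ} (hz : 0 < z) : Real.logb 2 z ≤ z := by
  have h1 : Real.log z ≤ z - 1 := Real.log_le_sub_one_of_pos hz
  have h2 : (1 : ℝ) / 2 < Real.log 2 := by have := Real.log_two_gt_d9; linarith
  rcases le_or_gt z 1 with h | h
  · have : Real.logb 2 z ≤ 0 := Real.logb_nonpos (by norm_num) hz.le h
    linarith
  · rw [Real.logb, div_le_iff₀ (by linarith)]
    by_cases h4 : z ≤ 2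
    · nlinarith
    · push Not at h4
      -- log z = log 2 + log (z/2) ≤ log 2 + z/2 - 1
      have h5 : Real.log z = Real.log 2 + Real.log (z / 2) := by
        rw [← Real.log_mul (by norm_num) (by positivity)]
        congr 1; ring
      have h6 : Real.log (z / 2) ≤ z / 2 - 1 := Real.log_le_sub_one_of_pos (by positivity)
      have h7 : Real.log 2 < 1 := by have := Real.log_two_lt_d9; linarith
      nlinarith

/-- the numerical choice of `d` -/
lemma exists_d (e : ℕ) : ∃ d : ℕ, (4 * e : ℝ) < Mw d ∧
    (d : ℝ) ≤ 2 ^ 18 * (e / Real.logb 2 (e + 2)) + 2 ^ 20 := by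
  set y : ℝ := (e : ℝ) + 2 with hy
  have he : (0 : ℝ) ≤ e := by positivity
  have hy2 : 2 ≤ y := by linarith
  set l : ℝ := Real.logb 2 y with hl
  have hl1 : 1 ≤ l := by
    rw [hl, show (1 : ℝ) = Real.logb 2 2 by simp]
    exact Real.logb_le_logb_of_le (by norm_num) (by norm_num) hy2
  set r : ℝ := e / l with hr
  have hr0 : 0 ≤ r := by positivity
  refine ⟨⌈2 ^ 18 * r⌉₊ + 2 ^ 19, ?_, ?_⟩
  · set d : ℕ := ⌈2 ^ 18 * r⌉₊ + 2 ^ 19 with hd
    have hdr : 2 ^ 18 * r + 2 ^ 19 ≤ (d : ℝ) := by
      rw [hd]; push_cast
      have := Nat.le_ceil (2 ^ 18 * r)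
      linarith
    clear_value d
    clear hd
    have hdpos : (0 : ℝ) < d := by
      have : (0 : ℝ) ≤ 2 ^ 18 * r := by positivity
      linarith
    -- lower bound on log d
    have hlog19 : (19 : ℝ) ≤ Real.logb 2 d := by
      rw [show (19 : ℝ) = Real.logb 2 (2 ^ (19 : ℕ)) by rw [Real.logb_pow]; simp]
      apply Real.logb_le_logb_of_le (by norm_num) (by norm_num)
      have : (0 : ℝ) ≤ 2 ^ 18 * r := by positivity
      linarith
    have hlog : l / 4 ≤ Real.logb 2 d := by
      rcases le_or_gt l 4 with h | h
      · linarith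
      · -- d ≥ √y / 2
        have hsq : l ≤ 2 * Real.sqrt y := by
          have h1 : Real.logb 2 (Real.sqrt y) ≤ Real.sqrt y :=
            logb_le_self (Real.sqrt_pos.2 (by linarith))
          have h2 : Real.logb 2 (Real.sqrt y) = l / 2 := by
            rw [Real.sqrt_eq_rpow, Real.logb_rpow_eq_mul_logb_of_pos (by linarith)]
            ring
          linarith
        have h3 : y / l ≤ d := by
          have h4 : y / l = r + 2 / l := by rw [hy, hr]; ring
          have h5 : 2 / l ≤ 2 := by
            rw [div_le_iff₀ (by linarith)]; linarith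
          rw [h4]
          nlinarith
        have h6 : Real.sqrt y / 2 ≤ d := by
          have hsp : 0 < Real.sqrt y := Real.sqrt_pos.2 (by linarith)
          have h7 : Real.sqrt y * Real.sqrt y = y := Real.mul_self_sqrt (by linarith)
          have h8 : Real.sqrt y / 2 ≤ y / l := by
            rw [div_le_div_iff₀ (by norm_num) (by linarith)]
            nlinarith
          linarith
        have h9 : Real.logb 2 (Real.sqrt y / 2) ≤ Real.logb 2 d := by
          have hsp : 0 < Real.sqrt y := Real.sqrt_pos.2 (by linarith)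
          exact Real.logb_le_logb_of_le (by norm_num) (by positivity) h6
        have h10 : Real.logb 2 (Real.sqrt y / 2) = l / 2 - 1 := by
          have hsp : 0 < Real.sqrt y := Real.sqrt_pos.2 (by linarith)
          rw [Real.logb_div hsp.ne' (by norm_num), Real.sqrt_eq_rpow,
            Real.logb_rpow_eq_mul_logb_of_pos (by linarith)]
          simp; ring
        linarith
    have hfin : (65536 : ℝ) * e < d * Real.logb 2 d := by
      have h1 : r * l = e := by rw [hr]; field_simp
      have h2 : (2 ^ 18 * r) * (l / 4) = 65536 * e := by rw [← h1]; ring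
      have h3 : (2 ^ 18 * r) * (l / 4) ≤ (2 ^ 18 * r) * Real.logb 2 d :=
        mul_le_mul_of_nonneg_left hlog (by positivity)
      have h4 : (2 ^ 18 * r + 2 ^ 19) * Real.logb 2 d ≤ d * Real.logb 2 d :=
        mul_le_mul_of_nonneg_right hdr (by linarith)
      nlinarith
    unfold Mw
    linarith
  · push_cast
    have := Nat.ceil_lt_add_one (show 0 ≤ 2 ^ 18 * r by positivity)
    linarith

lemma exists_k (s : ℕ) (hs : 2 ≤ s) : ∃ k : ℕ, 2 * s + 1 < 2 ^ k ∧
    (k : ℝ) ≤ 4 * Real.logb 2 s := by
  refine ⟨Nat.log 2 s + 3, ?_, ?_⟩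
  · have := Nat.lt_pow_succ_log_self (b := 2) (by norm_num) s
    have e : 2 ^ (Nat.log 2 s + 3) = 4 * 2 ^ (Nat.log 2 s).succ := by
      rw [Nat.succ_eq_add_one]; ring
    rw [e]; omega
  · have h1 : (Nat.log 2 s : ℝ) ≤ Real.logb 2 s := Real.natLog_le_logb s 2
    have h2 : (1 : ℝ) ≤ Real.logb 2 s := by
      rw [show (1 : ℝ) = Real.logb 2 2 by simp]
      exact Real.logb_le_logb_of_le (by norm_num) (by norm_num) (by exact_mod_cast hs)
    push_cast
    linarith

/-- **Depth in terms of the fan-out excess.** -/
theorem excess_bound : ∃ K : ℕ, ∀ (n : ℕ) (C : Circuit n) (A : Finset ℕ), 2 ≤ C.size →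
    A ⊆ Finset.range C.size → ∃ C' : Circuit n, C.Equiv C' ∧
      (C'.depth : ℝ) ≤ K * (Real.logb 2 C.size + A.card +
        C.excessOff A / Real.logb 2 (C.excessOff A + 2)) ∧
      (C'.size : ℝ) ≤ 2 ^ (K * (Real.logb 2 C.size + A.card +
        C.excessOff A / Real.logb 2 (C.excessOff A + 2))) := by
  refine ⟨2 ^ 21, fun n C A hC hA => ?_⟩
  obtain ⟨k, hk, hk'⟩ := exists_k C.size hC
  obtain ⟨d, hd, hd'⟩ := exists_d (C.excessOff A)
  obtain ⟨C', h1, h2, h3⟩ := (C.dp_eval_off A hA hk hd).toCircuit
  have hl : (1 : ℝ) ≤ Real.logb 2 C.size := by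
    rw [show (1 : ℝ) = Real.logb 2 2 by simp]
    exact Real.logb_le_logb_of_le (by norm_num) (by norm_num) (by exact_mod_cast hC)
  have hq : (0 : ℝ) ≤ C.excessOff A / Real.logb 2 (C.excessOff A + 2) := by
    apply div_nonneg (by positivity)
    apply Real.logb_nonneg (by norm_num)
    have : (0 : ℝ) ≤ C.excessOff A := by positivity
    linarith
  have hc : (0 : ℝ) ≤ A.card := by positivity
  have hb : ((3 * k + d + 2 + 2 * A.card + 1 : ℕ) : ℝ) ≤ ((2 ^ 21 : ℕ) : ℝ) *
      (Real.logb 2 C.size + A.card + C.excessOff A / Real.logb 2 (C.excessOff A + 2)) := by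
    push_cast
    nlinarith
  refine ⟨C', fun x => (h3 x).symm, ?_, ?_⟩
  · refine le_trans ?_ hb
    exact_mod_cast h1
  · have h4 : (C'.size : ℝ) ≤ (2 : ℝ) ^ ((3 * k + d + 2 + 2 * A.card + 1 : ℕ) : ℝ) := by
      rw [Real.rpow_natCast]
      exact_mod_cast h2.le
    exact h4.trans (Real.rpow_le_rpow_of_exponent_le (by norm_num) hb)

end Pool.Agent.H540R2
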