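import Mathlib
import Pool.Agent.H540R2.PV
import Pool.Agent.H540R2.Build
import Pool.Agent.H540R2.Excess

/-!
# Simultaneous size and depth reduction by blocks
-/

set_option autoImplicit false

namespace Pool.Agent.H540R2

variable {n : ℕ}

namespace Circuit

variable (C : Circuit n)

/-- the node of an operand, read over `n + C.size` variables: gates before `s` become variables,
the gates from `s` on are replaced by the argument `u` -/
def xarg (s : ℕ) (y : Fin (n + C.size) → Bool) (u : Bool) : Node n → Bool
  | .var i => y (Fin.castAdd C.size i)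
  | .const b => b
  | .gate j => if j < s then (if h : j < C.size then y (Fin.natAdd n ⟨j, h⟩) else false) else u

/-- predecessor inside the block -/
def xpred (s : ℕ) : Node n → Option ℕ
  | .gate j => if j < s then none else some j
  | _ => none

/-- the block system -/
def xG (s : ℕ) (v : ℕ) (y : Fin (n + C.size) → Bool) (u w : Bool) : Bool :=
  (C.gate v).op (C.xarg s y u (C.gate v).fst) (C.xarg s y w (C.gate v).snd)

/-- the block -/
def blk (s t : ℕ) : Finset ℕ := (Finset.range C.size).filter (fun v => s ≤ v ∧ v < s + t)

/-- the values in the block -/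
def xval (s t : ℕ) (v : ℕ) : BF (n + C.size) := fun y =>
  ev (C.blk s t) (fun v => xpred s (C.gate v).fst) (fun v => xpred s (C.gate v).snd)
    (C.xG s) (fun _ => false) y v

lemma dp_xarg (s : ℕ) (u : Bool) (a : Node n) : Dp (fun y => C.xarg s y u a) 0 := by
  cases a with
  | var i => exact Dp.var _ _
  | const b => exact Dp.const b _
  | gate j =>
    by_cases h : j < s
    · by_cases h' : j < C.size
      · simp only [xarg, h, h', if_true, dite_true]; exact Dp.var _ _
      · simp only [xarg, h, h', if_true, dite_false]; exact Dp.const _ _
    · simp only [xarg, h, if_false]; exact Dp.const u _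

lemma dp_op (g : Gate n) {m : ℕ} {p q : BF m} {d : ℕ} (hp : Dp p d) (hq : Dp q d) :
    Dp (fun x => g.op (p x) (q x)) (d + 1) := by
  cases g with
  | and a b => exact hp.and hq
  | or a b => exact hp.or hq
  | not a => exact hp.not.mono (by omega)

lemma xpred_fst {s v u : ℕ} (hv : v < C.size) (h : xpred s (C.gate v).fst = some u) :
    s ≤ u ∧ u < v := by
  cases hf : (C.gate v).fst with
  | var _ => rw [hf] at h; simp [xpred] at h
  | const _ => rw [hf] at h; simp [xpred] at h
  | gate j =>
    rw [hf] at h
    by_cases hj : j < s
    · simp [xpred, hj] at h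
    · simp [xpred, hj] at h
      subst h
      exact ⟨by omega, C.fst_lt hv hf⟩

lemma xpred_snd {s v u : ℕ} (hv : v < C.size) (h : xpred s (C.gate v).snd = some u) :
    s ≤ u ∧ u < v := by
  cases hf : (C.gate v).snd with
  | var _ => rw [hf] at h; simp [xpred] at h
  | const _ => rw [hf] at h; simp [xpred] at h
  | gate j =>
    rw [hf] at h
    by_cases hj : j < s
    · simp [xpred, hj] at h
    · simp [xpred, hj] at h
      subst h
      exact ⟨by omega, C.snd_lt hv hf⟩

lemma blk_sys (s t : ℕ) : IsSys (C.blk s t) (fun v => xpred s (C.gate v).fst)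
    (fun v => xpred s (C.gate v).snd) (C.xG s) (C.xval s t) 1 where
  val_eq v hv y := by
    have hv' := Finset.mem_range.1 (Finset.mem_filter.1 hv).1
    exact ev_of_mem hv (fun u hu => (C.xpred_fst hv' hu).2) (fun u hu => (C.xpred_snd hv' hu).2)
  dp v _ u w := dp_op _ (C.dp_xarg s u _) (C.dp_xarg s w _)
  lta v hv u hu := by
    obtain ⟨h1, h2, h3⟩ := Finset.mem_filter.1 hv
    have hv' := Finset.mem_range.1 h1
    have := C.xpred_fst hv' hu
    exact ⟨Finset.mem_filter.2 ⟨Finset.mem_range.2 (by omega), by omega, by omega⟩, this.2⟩
  ltb v hv u hu := by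
    obtain ⟨h1, h2, h3⟩ := Finset.mem_filter.1 hv
    have hv' := Finset.mem_range.1 h1
    have := C.xpred_snd hv' hu
    exact ⟨Finset.mem_filter.2 ⟨Finset.mem_range.2 (by omega), by omega, by omega⟩, this.2⟩

lemma blk_card (s t : ℕ) : (C.blk s t).card ≤ t := by
  have : C.blk s t ⊆ Finset.Ico s (s + t) := by
    intro v hv
    obtain ⟨_, h2, h3⟩ := Finset.mem_filter.1 hv
    exact Finset.mem_Ico.2 ⟨h2, h3⟩
  calc (C.blk s t).card ≤ (Finset.Ico s (s + t)).card := Finset.card_le_card this
    _ = t := by simp

lemma blk_wires (s t : ℕ) : sysWires (C.blk s t) (fun v => xpred s (C.gate v).fst)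
    (fun v => xpred s (C.gate v).snd) ≤ 2 * t := by
  unfold sysWires
  calc ∑ v ∈ C.blk s t, (oc (xpred s (C.gate v).fst) + oc (xpred s (C.gate v).snd))
      ≤ ∑ v ∈ C.blk s t, 2 := by
        apply Finset.sum_le_sum
        intro v _
        unfold oc
        split_ifs <;> omega
    _ = 2 * (C.blk s t).card := by simp [mul_comm]
    _ ≤ 2 * t := Nat.mul_le_mul_left _ (C.blk_card s t)

/-- the variables read as values of the circuit -/
def yval (x : Fin n → Bool) : Fin (n + C.size) → Bool :=
  Fin.append x (fun j => C.val x j)

lemma xval_eq {s t : ℕ} (x : Fin n → Bool) : ∀ v ∈ C.blk s t,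
    C.xval s t v (C.yval x) = C.val x v := by
  intro v
  induction v using Nat.strong_induction_on with
  | _ v ih =>
    intro hv
    obtain ⟨h1, h2, h3⟩ := Finset.mem_filter.1 hv
    have hv' := Finset.mem_range.1 h1
    rw [(C.blk_sys s t).val_eq v hv, C.val_eq hv' x]
    unfold xG
    congr 1
    · cases hf : (C.gate v).fst with
      | var i => simp [xarg, yval, Node.eval]
      | const b => rfl
      | gate j =>
        have hj := C.fst_lt hv' hf
        by_cases hjs : j < s
        · simp only [xarg, hjs, if_true, hj.trans hv', dite_true, yval, Node.eval]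
          exact Fin.append_right _ _ _
        · simp only [xarg, hjs, if_false, xpred, arg, Node.eval]
          exact ih j hj (Finset.mem_filter.2 ⟨Finset.mem_range.2 (by omega), by omega, by omega⟩)
    · cases hf : (C.gate v).snd with
      | var i => simp [xarg, yval, Node.eval]
      | const b => rfl
      | gate j =>
        have hj := C.snd_lt hv' hf
        by_cases hjs : j < s
        · simp only [xarg, hjs, if_true, hj.trans hv', dite_true, yval, Node.eval]
          exact Fin.append_right _ _ _
        · simp only [xarg, hjs, if_false, xpred, arg, Node.eval]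
          exact ih j hj (Finset.mem_filter.2 ⟨Finset.mem_range.2 (by omega), by omega, by omega⟩)

/-- `xval` only depends on the variables for inputs and for gates before `s` -/
lemma xval_congr {s t : ℕ} {y y' : Fin (n + C.size) → Bool}
    (h : ∀ i : Fin (n + C.size), (i : ℕ) < n + s → y i = y' i) : ∀ v ∈ C.blk s t,
    C.xval s t v y = C.xval s t v y' := by
  intro v
  induction v using Nat.strong_induction_on with
  | _ v ih =>
    intro hv
    obtain ⟨h1, h2, h3⟩ := Finset.mem_filter.1 hv
    have hv' := Finset.mem_range.1 h1
    rw [(C.blk_sys s t).val_eq v hv, (C.blk_sys s t).val_eq v hv]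
    unfold xG
    congr 1
    · cases hf : (C.gate v).fst with
      | var i =>
        simp only [xarg]
        exact h _ (by simp; omega)
      | const b => rfl
      | gate j =>
        have hj := C.fst_lt hv' hf
        by_cases hjs : j < s
        · simp only [xarg, hjs, if_true, hj.trans hv', dite_true]
          exact h _ (by simp; omega)
        · simp only [xarg, hjs, if_false, xpred, arg]
          exact ih j hj (Finset.mem_filter.2 ⟨Finset.mem_range.2 (by omega), by omega, by omega⟩)
    · cases hf : (C.gate v).snd with
      | var i =>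
        simp only [xarg]
        exact h _ (by simp; omega)
      | const b => rfl
      | gate j =>
        have hj := C.snd_lt hv' hf
        by_cases hjs : j < s
        · simp only [xarg, hjs, if_true, hj.trans hv', dite_true]
          exact h _ (by simp; omega)
        · simp only [xarg, hjs, if_false, xpred, arg]
          exact ih j hj (Finset.mem_filter.2 ⟨Finset.mem_range.2 (by omega), by omega, by omega⟩)

/-- The simulation: after `i` gates. -/
lemma block_sim {t d : ℕ} (ht : 0 < t) (hd : (2 * t : ℝ) < Mw d) : ∀ i ≤ C.size,
    ∃ (P : Circuit n) (ν : ℕ → Node n), P.size ≤ i * 2 ^ (d + 2) ∧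
      (∀ j < i, ∀ k, (ν j).wires k ≠ 0 → k < P.size) ∧
      (∀ j < i, ∀ x, (ν j).eval x (P.val x) = C.val x j) ∧
      ∀ j < i, (ν j).depth P.gateDepth ≤ (j / t + 1) * (d + 2) := by
  intro i
  induction i with
  | zero =>
    intro _
    exact ⟨Circuit.empty n, fun _ => .const false, by simp [Circuit.empty], by simp, by simp,
      by simp⟩
  | succ i ih =>
    intro hi
    obtain ⟨P, ν, hs, hw, hv, hdp⟩ := ih (by omega)
    set s := t * (i / t) with hs'
    have hsi : s ≤ i := Nat.mul_div_le i t
    have hit : i < s + t := by
      have := Nat.lt_mul_div_succ i ht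
      rw [hs']; linarith
    have hblk : i ∈ C.blk s t := Finset.mem_filter.2 ⟨Finset.mem_range.2 (by omega), hsi, hit⟩
    have hwires : (sysWires (C.blk s t) (fun v => xpred s (C.gate v).fst)
        (fun v => xpred s (C.gate v).snd) : ℝ) < Mw d := by
      refine lt_of_le_of_lt ?_ hd
      exact_mod_cast C.blk_wires s t
    obtain ⟨F, hF, hFe⟩ := pv d _ _ _ _ _ _ (C.blk_sys s t) hwires i hblk
    -- assignment of nodes to variables
    let μ : Fin (n + C.size) → Node n := Fin.append (fun k : Fin n => (.var k : Node n))
      (fun j : Fin C.size => if (j : ℕ) < s then ν j else .const false)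
    have hμ1 : ∀ k : Fin n, μ (Fin.castAdd C.size k) = .var k := fun k => by simp [μ]
    have hμ2 : ∀ j : Fin C.size, μ (Fin.natAdd n j) = if (j : ℕ) < s then ν j else .const false :=
      fun j => by simp [μ]
    have hμw : ∀ k j, (μ k).wires j ≠ 0 → j < P.size := by
      intro k j
      refine Fin.addCases (fun k => ?_) (fun k => ?_) k
      · rw [hμ1]; intro h; exact absurd rfl h
      · rw [hμ2]
        split_ifs with h
        · exact hw k (by omega) j
        · intro h; exact absurd rfl h
    obtain ⟨P', e1, e2, e3, e4⟩ := Circuit.build F P μ hμw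
    refine ⟨P', fun j => if j < i then ν j else P'.out, ?_, ?_, ?_, ?_⟩
    · have h1 : 2 ^ (F.depth + 1) ≤ 2 ^ (d + 2) := Nat.pow_le_pow_right (by norm_num) (by omega)
      have h2 : (i + 1) * 2 ^ (d + 2) = i * 2 ^ (d + 2) + 2 ^ (d + 2) := by ring
      omega
    · intro j hj k hk
      by_cases hji : j < i
      · simp only [hji, if_true] at hk
        exact lt_of_lt_of_le (hw j hji k hk) e1.1
      · simp only [hji, if_false] at hk
        exact P'.out_lt k hk
    · intro j hj x
      by_cases hji : j < i
      · simp only [hji, if_true]
        rw [e1.node_eval x (hw j hji), hv j hji x]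
      · have hji' : j = i := by omega
        subst hji'
        simp only [lt_irrefl, if_false]
        have h1 : P'.out.eval x (P'.val x) = P'.eval x := rfl
        rw [h1, e3, hFe, ← C.xval_eq x j hblk]
        apply C.xval_congr _ j hblk
        intro k
        refine Fin.addCases (fun k => ?_) (fun k => ?_) k
        · intro _
          rw [hμ1]
          simp [yval, Node.eval]
        · intro hk
          have hks : (k : ℕ) < s := by simpa using hk
          rw [hμ2]
          simp only [hks, if_true]
          rw [hv k (by omega) x]
          simp [yval]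
    · intro j hj
      by_cases hji : j < i
      · simp only [hji, if_true]
        rw [e1.node_depth (hw j hji)]
        exact hdp j hji
      · have hji' : j = i := by omega
        subst hji'
        simp only [lt_irrefl, if_false]
        have h1 : P'.out.depth P'.gateDepth = P'.depth := rfl
        rw [h1]
        have h2 := e4 (j / t * (d + 2)) (by
          intro k
          refine Fin.addCases (fun k => ?_) (fun k => ?_) k
          · rw [hμ1]; exact Nat.zero_le _
          · rw [hμ2]
            split_ifs with h
            · refine (hdp k (by omega)).trans ?_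
              apply Nat.mul_le_mul_right
              have : (k : ℕ) / t < j / t := by
                rw [Nat.div_lt_iff_lt_mul ht]
                rw [hs', mul_comm] at h
                exact h
              omega
            · exact Nat.zero_le _)
        refine h2.trans ?_
        have h3 : (j / t + 1) * (d + 2) = j / t * (d + 2) + (d + 2) := by ring
        omega

end Circuit

/-- **Simultaneous size and depth bound**, in terms of the depth parameter `d`. -/
theorem block_bound (C : Circuit n) {t d : ℕ} (ht : 0 < t) (hd : (2 * t : ℝ) < Mw d) :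
    ∃ C' : Circuit n, C.Equiv C' ∧ C'.size ≤ C.size * 2 ^ (d + 2) ∧
      C'.depth ≤ (C.size / t + 1) * (d + 2) := by
  obtain ⟨P, ν, hs, hw, hv, hdp⟩ := C.block_sim ht hd C.size le_rfl
  cases ho : C.out with
  | var i =>
    have hc : ∀ j, (Node.var i : Node n).wires j ≠ 0 → j < P.size := fun j hj => absurd rfl hj
    refine ⟨P.setOut (.var i) hc, fun x => ?_, hs, ?_⟩
    · rw [Circuit.setOut_eval]; simp [Circuit.eval, ho, Node.eval]
    · rw [Circuit.setOut_depth]; simp [Node.depth]
  | const b =>
    have hc : ∀ j, (Node.const b : Node n).wires j ≠ 0 → j < P.size :=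
      fun j hj => absurd rfl hj
    refine ⟨P.setOut (.const b) hc, fun x => ?_, hs, ?_⟩
    · rw [Circuit.setOut_eval]; simp [Circuit.eval, ho, Node.eval]
    · rw [Circuit.setOut_depth]; simp [Node.depth]
  | gate j =>
    have hj : j < C.size := C.out_lt j (by simp [ho, Node.wires])
    refine ⟨P.setOut (ν j) (hw j hj), fun x => ?_, hs, ?_⟩
    · rw [Circuit.setOut_eval, hv j hj x]; simp [Circuit.eval, ho, Node.eval]
    · rw [Circuit.setOut_depth]
      refine (hdp j hj).trans ?_
      apply Nat.mul_le_mul_right
      have : j / t ≤ C.size / t := Nat.div_le_div_right hj.le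
      omega

end Pool.Agent.H540R2
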