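import Mathlib
import Pool.Agent.H540R2.Block

set_option autoImplicit false

namespace Pool.Agent.H540R2

/-- **Size–depth trade-off for general circuits.** -/
theorem tradeoff : ∃ K : ℕ, ∀ (n : ℕ) (C : Circuit n) (t : ℕ), 2 ≤ t →
    ∃ C' : Circuit n, C.Equiv C' ∧
      (C'.size : ℝ) ≤ C.size * 2 ^ (K * (t / Real.logb 2 t)) ∧
      (C'.depth : ℝ) ≤ K * ((C.size / t + 1) * (t / Real.logb 2 t)) := by
  refine ⟨2 ^ 21, fun n C t ht => ?_⟩
  obtain ⟨d, hd, hd'⟩ := exists_d t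
  have ht' : (2 : ℝ) ≤ t := by exact_mod_cast ht
  have hlt : (2 * t : ℝ) < Mw d := by
    have : (0 : ℝ) ≤ t := by positivity
    linarith
  obtain ⟨C', h1, h2, h3⟩ := block_bound C (by omega) hlt
  have hl1 : (1 : ℝ) ≤ Real.logb 2 t := by
    rw [show (1 : ℝ) = Real.logb 2 2 by simp]
    exact Real.logb_le_logb_of_le (by norm_num) (by norm_num) ht'
  have hl2 : Real.logb 2 t ≤ Real.logb 2 (t + 2) :=
    Real.logb_le_logb_of_le (by norm_num) (by linarith) (by linarith)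
  set r : ℝ := t / Real.logb 2 t with hr
  have hr1 : 1 ≤ r := by
    rw [hr, le_div_iff₀ (by linarith), one_mul]
    exact logb_le_self (by linarith)
  have hr2 : (t : ℝ) / Real.logb 2 (t + 2) ≤ r := by
    rw [hr]
    exact div_le_div_of_nonneg_left (by linarith) (by linarith) hl2
  have hdr : ((d + 2 : ℕ) : ℝ) ≤ ((2 ^ 21 : ℕ) : ℝ) * r := by
    push_cast
    nlinarith
  refine ⟨C', h1, ?_, ?_⟩
  · have h4 : (C'.size : ℝ) ≤ C.size * (2 : ℝ) ^ ((d + 2 : ℕ) : ℝ) := by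
      rw [Real.rpow_natCast]
      exact_mod_cast h2
    exact h4.trans (mul_le_mul_of_nonneg_left
      (Real.rpow_le_rpow_of_exponent_le (by norm_num) hdr) (by positivity))
  · have h5 : ((C.size / t : ℕ) : ℝ) ≤ C.size / t := Nat.cast_div_le
    have h6 : (C'.depth : ℝ) ≤ (((C.size / t : ℕ) : ℝ) + 1) * ((d + 2 : ℕ) : ℝ) := by
      exact_mod_cast h3
    have h7 : (0 : ℝ) ≤ (C.size : ℝ) / t := by positivity
    calc (C'.depth : ℝ) ≤ (((C.size / t : ℕ) : ℝ) + 1) * ((d + 2 : ℕ) : ℝ) := h6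
      _ ≤ (C.size / t + 1) * (((2 ^ 21 : ℕ) : ℝ) * r) := by
          apply mul_le_mul (by linarith) hdr (by positivity) (by linarith)
      _ = _ := by ring

end Pool.Agent.H540R2
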