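import Mathlib
import Pool.Agent.H540R2.Circ

/-!
# Treedepth of the gate graph of a circuit
-/

set_option autoImplicit false

namespace Pool.Agent.H540R2

variable {n : ℕ}

/-- Two gates are adjacent in the underlying undirected graph of the circuit if there is a wire
between them. -/
def Circuit.Adj (C : Circuit n) (i j : ℕ) : Prop :=
  (C.gate i).wires j ≠ 0 ∨ (C.gate j).wires i ≠ 0

/-- `TreeDepthLE adj V k`: the graph induced by `adj` on the finite vertex set `V` has treedepth
at most `k`. The graph without vertices has treedepth at most `k`; if deleting one vertex leaves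
treedepth at most `k`, the graph has treedepth at most `k + 1`; and the treedepth of a disjoint
union (no edges between the two parts) is at most `k` if it is for both parts. -/
inductive TreeDepthLE (adj : ℕ → ℕ → Prop) : Finset ℕ → ℕ → Prop
  | empty (k : ℕ) : TreeDepthLE adj ∅ k
  | delete (V : Finset ℕ) (v k : ℕ) : TreeDepthLE adj (V.erase v) k → TreeDepthLE adj V (k + 1)
  | union (V W : Finset ℕ) (k : ℕ) : Disjoint V W → (∀ v ∈ V, ∀ w ∈ W, ¬ adj v w) →
      TreeDepthLE adj V k → TreeDepthLE adj W k → TreeDepthLE adj (V ∪ W) k

end Pool.Agent.H540R2
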