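import Mathlib
import Pool.Agent.H540R2.TreeDepth
import Pool.Agent.H540R2.Build
import Pool.Agent.H540R2.Excess

/-!
# Depth is at most three times the treedepth of the gate graph (plus 2)
-/

set_option autoImplicit false

namespace Pool.Agent.H540R2

variable {n : ℕ}

namespace Circuit

variable (C : Circuit n)

/-- value of gate `v` when the gates outside `V` are forced to the constants `α` -/
def fv (V : Finset ℕ) (α : ℕ → Bool) (x : Fin n → Bool) : ℕ → Bool
  | v => if v ∈ V then
      (C.gate v).eval x (fun j => if _h : j < v then fv V α x j else false) else α v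
termination_by v => v

lemma fv_out {V : Finset ℕ} {α : ℕ → Bool} {x : Fin n → Bool} {v : ℕ} (h : v ∉ V) :
    C.fv V α x v = α v := by
  rw [fv]; simp [h]

lemma fv_in {V : Finset ℕ} (hV : V ⊆ Finset.range C.size) {α : ℕ → Bool} {x : Fin n → Bool}
    {v : ℕ} (h : v ∈ V) : C.fv V α x v = (C.gate v).eval x (C.fv V α x) := by
  have hv := Finset.mem_range.1 (hV h)
  rw [fv]
  simp only [h, if_true]
  apply Gate.eval_congr
  intro j hj
  simp [C.gate_lt v hv j hj]

/-- forcing one more gate -/
lemma fv_erase {V : Finset ℕ} (hV : V ⊆ Finset.range C.size) {α : ℕ → Bool} {x : Fin n → Bool}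
    {u : ℕ} {c : Bool} (hc : C.fv V α x u = c) :
    ∀ v, C.fv V α x v = C.fv (V.erase u) (Function.update α u c) x v := by
  intro v
  induction v using Nat.strong_induction_on with
  | _ v ih =>
    by_cases hvu : v = u
    · subst hvu
      rw [C.fv_out (V := V.erase v) (by simp)]
      simp [hc]
    · by_cases hv : v ∈ V
      · have hv' : v ∈ V.erase u := Finset.mem_erase.2 ⟨hvu, hv⟩
        rw [C.fv_in hV hv, C.fv_in ((Finset.erase_subset _ _).trans hV) hv']
        apply Gate.eval_congr
        intro j hj
        exact ih j (C.gate_lt v (Finset.mem_range.1 (hV hv)) j hj)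
      · have hv' : v ∉ V.erase u := fun h => hv (Finset.mem_of_mem_erase h)
        rw [C.fv_out hv, C.fv_out hv']
        simp [Function.update_of_ne hvu]

/-- gates before `u` do not depend on `u` -/
lemma fv_erase_lt {V : Finset ℕ} (hV : V ⊆ Finset.range C.size) {α : ℕ → Bool}
    {x : Fin n → Bool} {u : ℕ} (c : Bool) :
    ∀ v < u, C.fv V α x v = C.fv (V.erase u) (Function.update α u c) x v := by
  intro v
  induction v using Nat.strong_induction_on with
  | _ v ih =>
    intro hvu
    by_cases hv : v ∈ V
    · have hv' : v ∈ V.erase u := Finset.mem_erase.2 ⟨hvu.ne, hv⟩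
      rw [C.fv_in hV hv, C.fv_in ((Finset.erase_subset _ _).trans hV) hv']
      apply Gate.eval_congr
      intro j hj
      have := C.gate_lt v (Finset.mem_range.1 (hV hv)) j hj
      exact ih j this (this.trans hvu)
    · have hv' : v ∉ V.erase u := fun h => hv (Finset.mem_of_mem_erase h)
      rw [C.fv_out hv, C.fv_out hv']
      simp [Function.update_of_ne hvu.ne]

lemma fv_union {V W : Finset ℕ} (hV : V ∪ W ⊆ Finset.range C.size) {α : ℕ → Bool}
    {x : Fin n → Bool} (hVW : Disjoint V W) (hadj : ∀ v ∈ V, ∀ w ∈ W, ¬ C.Adj v w) :
    ∀ v ∈ V, C.fv (V ∪ W) α x v = C.fv V α x v := by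
  intro v
  induction v using Nat.strong_induction_on with
  | _ v ih =>
    intro hv
    rw [C.fv_in hV (Finset.mem_union_left _ hv), C.fv_in
      ((Finset.subset_union_left).trans hV) hv]
    apply Gate.eval_congr
    intro j hj
    have hlt := C.gate_lt v (Finset.mem_range.1 (hV (Finset.mem_union_left _ hv))) j hj
    by_cases hjV : j ∈ V
    · exact ih j hlt hjV
    · have hjW : j ∉ W := fun h => hadj v hv j h (Or.inl hj)
      rw [C.fv_out (by simp [hjV, hjW]), C.fv_out hjV]

lemma dp_node {f : ℕ → BF n} {m : ℕ} (a : Node n) (h : ∀ j, a.wires j ≠ 0 → Dp (f j) m) :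
    Dp (fun x => a.eval x (fun j => f j x)) m := by
  cases a with
  | var i => exact Dp.var i _
  | const b => exact Dp.const b _
  | gate j => exact h j (by simp [Node.wires])

lemma dp_of_args {f : ℕ → BF n} {m : ℕ} (g : Gate n) (h : ∀ j, g.wires j ≠ 0 → Dp (f j) m) :
    Dp (fun x => g.eval x (fun j => f j x)) (m + 1) := by
  cases g with
  | and a b =>
    exact (dp_node a fun j hj => h j (by simp only [Gate.wires]; omega)).and
      (dp_node b fun j hj => h j (by simp only [Gate.wires]; omega))
  | or a b =>
    exact (dp_node a fun j hj => h j (by simp only [Gate.wires]; omega)).or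
      (dp_node b fun j hj => h j (by simp only [Gate.wires]; omega))
  | not a =>
    exact (dp_node a fun j hj => h j (by simp only [Gate.wires]; omega)).not.mono (by omega)

lemma td_bound {V : Finset ℕ} {k : ℕ} (h : TreeDepthLE C.Adj V k) :
    V ⊆ Finset.range C.size → ∀ (α : ℕ → Bool) (v : ℕ),
      Dp (fun x => C.fv V α x v) (3 * k) := by
  induction h with
  | empty k =>
    intro _ α v
    exact (Dp.const (α v) _).congr fun x => by rw [C.fv_out (by simp)]
  | delete V u k h ih =>
    intro hV α v
    have ih' := ih ((Finset.erase_subset _ _).trans hV)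
    -- the value of `u`
    have hu : Dp (fun x => C.fv V α x u) (3 * k + 1) := by
      by_cases huV : u ∈ V
      · have h1 := dp_of_args (f := fun j x => C.fv (V.erase u) (Function.update α u false) x j)
          (C.gate u) (m := 3 * k) (fun j _ => ih' _ j)
        refine h1.congr fun x => ?_
        rw [C.fv_in hV huV]
        apply Gate.eval_congr
        intro j hj
        exact (C.fv_erase_lt hV false j
          (C.gate_lt u (Finset.mem_range.1 (hV huV)) j hj)).symm
      · exact (Dp.const (α u) _).congr fun x => by rw [C.fv_out huV]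
    have h1 := hu.mux ((ih' (Function.update α u true) v).mono (Nat.le_succ _))
      ((ih' (Function.update α u false) v).mono (Nat.le_succ _))
    refine (h1.mono (by omega)).congr fun x => ?_
    show (if C.fv V α x u = true then _ else _) = _
    cases hc : C.fv V α x u
    · simpa using (C.fv_erase hV hc v).symm
    · simpa using (C.fv_erase hV hc v).symm
  | union V W k hVW hadj hV' hW' ihV ihW =>
    intro hVr α v
    by_cases hv : v ∈ V
    · refine (ihV (Finset.subset_union_left.trans hVr) α v).congr fun x => ?_
      exact (C.fv_union hVr hVW hadj v hv).symm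
    · by_cases hw : v ∈ W
      · refine (ihW (Finset.subset_union_right.trans hVr) α v).congr fun x => ?_
        have h2 := C.fv_union (V := W) (W := V) (by rwa [Finset.union_comm]) (α := α) (x := x)
          hVW.symm (fun w hw v hv h => hadj v hv w hw (by
            unfold Adj at h ⊢; tauto)) v hw
        rw [Finset.union_comm]
        exact h2.symm
      · refine (Dp.const (α v) _).congr fun x => ?_
        rw [C.fv_out (by simp [hv, hw])]

lemma fv_range (α : ℕ → Bool) (x : Fin n → Bool) : ∀ v < C.size,
    C.fv (Finset.range C.size) α x v = C.val x v := by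
  intro v
  induction v using Nat.strong_induction_on with
  | _ v ih =>
    intro hv
    rw [C.fv_in (le_refl _) (Finset.mem_range.2 hv), C.val_gate hv]
    apply Gate.eval_congr
    intro j hj
    have := C.gate_lt v hv j hj
    exact ih j this (this.trans hv)

/-- **Depth is bounded by treedepth.** -/
theorem treedepth_bound {k : ℕ} (h : TreeDepthLE C.Adj (Finset.range C.size) k) :
    ∃ C' : Circuit n, C.Equiv C' ∧ C'.depth ≤ 3 * k + 1 ∧ C'.size < 2 ^ (3 * k + 1) := by
  have h1 : Dp C.eval (3 * k) := by
    have h2 := dp_node (f := fun j x => C.fv (Finset.range C.size) (fun _ => false) x j)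
      (m := 3 * k) C.out (fun j _ => C.td_bound h (le_refl _) _ j)
    refine h2.congr fun x => ?_
    show _ = C.out.eval x (C.val x)
    apply Node.eval_congr
    intro j hj
    exact C.fv_range _ x j (C.out_lt j hj)
  obtain ⟨C', h2, h3, h4⟩ := h1.toCircuit
  exact ⟨C', fun x => (h4 x).symm, h2, h3⟩

end Circuit

end Pool.Agent.H540R2
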