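import Mathlib
import Pool.Agent.H540R2.Excess
import Pool.Agent.H540R2.TDProof

/-!
# Q1 for circuits of bounded fan-out excess is equivalent to a general depth bound
-/

set_option autoImplicit false

namespace Pool.Agent.H540R2

variable {n : ℕ}

/-! ### composition of formulas -/

/-- substitution -/
def Fm.subst {m : ℕ} (ψ : Fin m → Fm n) : Fm m → Fm n
  | .lit i b => if b then ψ i else (ψ i).neg
  | .const b => .const b
  | .and F G => .and (F.subst ψ) (G.subst ψ)
  | .or F G => .or (F.subst ψ) (G.subst ψ)

lemma Fm.eval_subst {m : ℕ} (ψ : Fin m → Fm n) (F : Fm m) (x : Fin n → Bool) :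
    (F.subst ψ).eval x = F.eval (fun i => (ψ i).eval x) := by
  induction F with
  | lit i b => cases b <;> simp [Fm.subst, Fm.eval]
  | const b => rfl
  | and F G hF hG => simp [Fm.subst, Fm.eval, hF, hG]
  | or F G hF hG => simp [Fm.subst, Fm.eval, hF, hG]

lemma Fm.depth_subst {m : ℕ} (ψ : Fin m → Fm n) (d : ℕ) (hd : ∀ i, (ψ i).depth ≤ d)
    (F : Fm m) : (F.subst ψ).depth ≤ F.depth + d := by
  induction F with
  | lit i b => cases b <;> simp [Fm.subst, Fm.depth, hd i]
  | const b => simp [Fm.subst, Fm.depth]
  | and F G hF hG => simp only [Fm.subst, Fm.depth]; omega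
  | or F G hF hG => simp only [Fm.subst, Fm.depth]; omega

lemma Dp.comp {m : ℕ} {f : BF m} {φ : Fin m → BF n} {a d : ℕ} (hf : Dp f a)
    (hφ : ∀ i, Dp (φ i) d) : Dp (fun x => f (fun i => φ i x)) (a + d) := by
  obtain ⟨F, h1, h2⟩ := hf
  choose ψ h3 h4 using hφ
  refine ⟨F.subst ψ, (Fm.depth_subst ψ d h3 F).trans (by omega), fun x => ?_⟩
  rw [Fm.eval_subst, h2]
  congr 1
  funext i
  exact h4 i x

/-- unfolding a circuit -/
lemma Circuit.dp_unfold (C : Circuit n) : Dp C.eval C.depth := by
  have key : ∀ i < C.size, Dp (fun x => C.val x i) (C.gateDepth i) := by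
    intro i
    induction i using Nat.strong_induction_on with
    | _ i ih =>
      intro hi
      have hnode : ∀ a : Node n, (∀ j, a.wires j ≠ 0 → j < i) →
          Dp (fun x => a.eval x (C.val x)) (a.depth C.gateDepth) := by
        intro a ha
        cases a with
        | var k => exact Dp.var k _
        | const b => exact Dp.const b _
        | gate j =>
          have hj := ha j (by simp [Node.wires])
          exact ih j hj (hj.trans hi)
      have hg := C.gate_lt i hi
      have h1 : ∀ x, C.val x i = (C.gate i).eval x (C.val x) := C.val_gate hi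
      rw [C.gateDepth_gate hi]
      refine Dp.congr ?_ (fun x => (h1 x).symm)
      cases hgi : C.gate i with
      | and a b =>
        rw [hgi] at hg
        have ha := hnode a (fun j hj => hg j (by simp only [Gate.wires]; omega))
        have hb := hnode b (fun j hj => hg j (by simp only [Gate.wires]; omega))
        exact (ha.mono (le_max_left _ _)).and (hb.mono (le_max_right _ _))
      | or a b =>
        rw [hgi] at hg
        have ha := hnode a (fun j hj => hg j (by simp only [Gate.wires]; omega))
        have hb := hnode b (fun j hj => hg j (by simp only [Gate.wires]; omega))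
        exact (ha.mono (le_max_left _ _)).or (hb.mono (le_max_right _ _))
      | not a =>
        rw [hgi] at hg
        have ha := hnode a (fun j hj => hg j (by simp only [Gate.wires]; omega))
        exact ha.not.mono (Nat.le_succ _)
  unfold depth
  show Dp (fun x => C.out.eval x (C.val x)) _
  cases ho : C.out with
  | var k => exact Dp.var k _
  | const b => exact Dp.const b _
  | gate j => exact key j (C.out_lt j (by simp [ho, Node.wires]))

/-! ### padding -/

namespace Circuit

/-- pad a circuit by `k` gates `prev ∧ 1` -/
def padK (C : Circuit n) : ℕ → Circuit n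
  | 0 => C
  | k + 1 => (C.padK k).add (.and (C.padK k).out (.const true)) (by
      intro j hj
      exact (C.padK k).out_lt j hj)

lemma padK_size (C : Circuit n) (k : ℕ) : (C.padK k).size = C.size + k := by
  induction k with
  | zero => rfl
  | succ k ih => show (C.padK k).size + 1 = _; omega

lemma padK_eval (C : Circuit n) (k : ℕ) (x : Fin n → Bool) : (C.padK k).eval x = C.eval x := by
  induction k with
  | zero => rfl
  | succ k ih =>
    have h : (C.padK (k + 1)).eval x = (Gate.and (C.padK k).out (.const true)).eval x
        ((C.padK k).val x) := add_eval _ _ _ x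
    rw [h]
    simp only [Gate.eval, Node.eval, Bool.and_true]
    exact ih

lemma add_fanout (P : Circuit n) (g : Gate n) (hg : ∀ j, g.wires j ≠ 0 → j < P.size) (j : ℕ) :
    (P.add g hg).fanout j = P.fanout j + g.wires j := by
  unfold fanout
  have hs : (P.add g hg).size = P.size + 1 := rfl
  rw [hs, Finset.sum_range_succ]
  congr 1
  · apply Finset.sum_congr rfl
    intro i hi
    have hi' := Finset.mem_range.1 hi
    have : (P.add g hg).gate i = P.gate i := Function.update_of_ne hi'.ne _ _
    rw [this]
  · have : (P.add g hg).gate P.size = g := Function.update_self _ _ _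
    rw [this]

lemma fanout_eq_zero (P : Circuit n) {j : ℕ} (hj : P.size ≤ j) : P.fanout j = 0 := by
  unfold fanout
  apply Finset.sum_eq_zero
  intro i hi
  by_contra hc
  have := P.gate_lt i (Finset.mem_range.1 hi) j hc
  have := Finset.mem_range.1 hi
  omega

/-- padding at a circuit whose output gate has no outgoing wire does not change the excess -/
lemma add_and_excess (P : Circuit n) (hg) (h0 : ∀ j, P.out.wires j ≠ 0 → P.fanout j = 0) :
    (P.add (.and P.out (.const true)) hg).excess = P.excess := by
  unfold excess
  have hs : (P.add (.and P.out (.const true)) hg).size = P.size + 1 := rfl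
  rw [hs, Finset.sum_range_succ, add_fanout, P.fanout_eq_zero le_rfl]
  have hw : (Gate.and P.out (.const true)).wires P.size = 0 := by
    by_contra hc
    exact lt_irrefl _ (hg _ hc)
  rw [hw]
  simp only [add_zero, Nat.zero_sub]
  apply Finset.sum_congr rfl
  intro j hj
  rw [add_fanout]
  have hgw : (Gate.and P.out (.const true)).wires j = P.out.wires j := rfl
  rw [hgw]
  by_cases h : P.out.wires j = 0
  · rw [h, add_zero]
  · have h1 := h0 j h
    have h2 : P.out.wires j ≤ 1 := by
      cases P.out with
      | var i => simp [Node.wires]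
      | const b => simp [Node.wires]
      | gate i => simp only [Node.wires]; split_ifs <;> omega
    omega

lemma node_wires_sum (a : Node n) (s : ℕ) : ∑ j ∈ Finset.range s, a.wires j ≤ 1 := by
  cases a with
  | var i => simp [Node.wires]
  | const b => simp [Node.wires]
  | gate i =>
    simp only [Node.wires]
    rw [Finset.sum_ite_eq]
    split_ifs <;> omega

lemma gate_wires_sum (g : Gate n) (s : ℕ) : ∑ j ∈ Finset.range s, g.wires j ≤ 2 := by
  have h : ∑ j ∈ Finset.range s, g.wires j =
      ∑ j ∈ Finset.range s, g.fst.wires j + ∑ j ∈ Finset.range s, g.snd.wires j := by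
    rw [← Finset.sum_add_distrib]
    exact Finset.sum_congr rfl fun j _ => Gate.wires_eq g j
  have h1 := node_wires_sum g.fst s
  have h2 := node_wires_sum g.snd s
  omega

lemma sum_fanout_le (P : Circuit n) (s : ℕ) :
    ∑ j ∈ Finset.range s, P.fanout j ≤ 2 * P.size := by
  unfold fanout
  rw [Finset.sum_comm]
  calc ∑ i ∈ Finset.range P.size, ∑ j ∈ Finset.range s, (P.gate i).wires j
      ≤ ∑ i ∈ Finset.range P.size, 2 := Finset.sum_le_sum fun i _ => gate_wires_sum _ s
    _ = 2 * P.size := by simp [mul_comm]

lemma excess_le (P : Circuit n) : P.excess ≤ 2 * P.size := by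
  unfold excess
  calc ∑ j ∈ Finset.range P.size, (P.fanout j - 1)
      ≤ ∑ j ∈ Finset.range P.size, P.fanout j := Finset.sum_le_sum fun j _ => Nat.sub_le _ _
    _ ≤ 2 * P.size := P.sum_fanout_le _

lemma padK_out_fanout (C : Circuit n) (k : ℕ) :
    ∀ j, (C.padK (k + 1)).out.wires j ≠ 0 → (C.padK (k + 1)).fanout j = 0 := by
  intro j hj
  have h : (C.padK (k + 1)).out = .gate (C.padK k).size := rfl
  rw [h] at hj
  simp only [Node.wires] at hj
  split_ifs at hj with h1
  · subst h1
    have h2 : (C.padK (k + 1)).fanout (C.padK k).size = (C.padK k).fanout (C.padK k).size +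
        (Gate.and (C.padK k).out (.const true)).wires (C.padK k).size := add_fanout _ _ _ _
    rw [h2, fanout_eq_zero _ le_rfl]
    have h3 : ∀ a : Node n, (∀ j, a.wires j ≠ 0 → j < (C.padK k).size) →
        a.wires (C.padK k).size = 0 := by
      intro a ha
      by_contra hc
      exact lt_irrefl _ (ha _ hc)
    have hgw : (Gate.and (C.padK k).out (.const true)).wires (C.padK k).size =
        (C.padK k).out.wires (C.padK k).size := rfl
    rw [hgw, zero_add]
    exact h3 _ (C.padK k).out_lt
  · exact absurd rfl hj

lemma padK_excess (C : Circuit n) (k : ℕ) : (C.padK k).excess ≤ 2 * C.size + 2 := by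
  have h1 : (C.padK 1).excess ≤ 2 * C.size + 2 := by
    have := (C.padK 1).excess_le
    rw [C.padK_size] at this
    omega
  induction k with
  | zero => exact (C.excess_le).trans (by omega)
  | succ k ih =>
    cases k with
    | zero => exact h1
    | succ k =>
      have h2 : (C.padK (k + 1 + 1)).excess = (C.padK (k + 1)).excess :=
        add_and_excess _ _ (C.padK_out_fanout k)
      rw [h2]
      exact ih

end Circuit

end Pool.Agent.H540R2
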