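import Mathlib
import Pool.Agent.H540R2.Calib

/-!
# The kernel of a circuit as a circuit
-/

set_option autoImplicit false

namespace Pool.Agent.H540R2

variable {n : ℕ}

/-- `if 0 then (if 1 then 2 else 3) else (if 1 then 4 else 5)` -/
def muxF : Fm 6 :=
  .or (.and (.lit 0 true)
        (.or (.and (.lit 1 true) (.lit 2 true)) (.and (.lit 1 false) (.lit 3 true))))
      (.and (.lit 0 false)
        (.or (.and (.lit 1 true) (.lit 4 true)) (.and (.lit 1 false) (.lit 5 true))))

lemma muxF_eval (y : Fin 6 → Bool) : muxF.eval y =
    if y 0 then (if y 1 then y 2 else y 3) else (if y 1 then y 4 else y 5) := by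
  simp only [muxF, Fm.eval]
  cases y 0 <;> cases y 1 <;> simp

/-- `if 0 then 1 else 2` -/
def muxG : Fm 3 := .or (.and (.lit 0 true) (.lit 1 true)) (.and (.lit 0 false) (.lit 2 true))

lemma muxG_eval (y : Fin 3 → Bool) : muxG.eval y = if y 0 then y 1 else y 2 := by
  simp only [muxG, Fm.eval]
  cases y 0 <;> simp

/-- node of an optional reference -/
def onode {m : ℕ} (π : ℕ → Node m) : Option ℕ → Node m
  | none => .const false
  | some u => π u

namespace Circuit

variable (C : Circuit n)

lemma kern_card : C.kern.card ≤ 3 * C.excess := by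
  have h1 := C.kern_wires
  have hw : sysWires C.kern (fun i => C.nhead (C.gate i).fst)
      (fun i => C.nhead (C.gate i).snd) =
      ∑ i ∈ C.kern, (C.nh (C.gate i).fst + C.nh (C.gate i).snd) := rfl
  rw [hw] at h1
  set B := (Finset.range C.size).filter (fun i => C.Branch i) with hB
  have hBc : B.card ≤ C.excess := by
    unfold excess
    rw [Finset.card_eq_sum_ones]
    calc ∑ i ∈ B, 1 ≤ ∑ i ∈ B, (C.fanout i - 1) := by
          apply Finset.sum_le_sum
          intro i hi
          have := (Finset.mem_filter.1 hi).2
          unfold Branch at this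
          omega
      _ ≤ _ := Finset.sum_le_sum_of_subset (Finset.filter_subset _ _)
  have h4 : 2 * C.kern.card ≤
      ∑ i ∈ C.kern, (C.nh (C.gate i).fst + C.nh (C.gate i).snd) + 2 * B.card := by
    have hBK : B ⊆ C.kern := by
      intro i hi
      obtain ⟨hi1, hi2⟩ := Finset.mem_filter.1 hi
      exact Finset.mem_filter.2 ⟨hi1, Or.inl hi2⟩
    have e1 := (Finset.sum_sdiff (f := fun i => C.nh (C.gate i).fst + C.nh (C.gate i).snd)
      hBK).symm
    have e2 : 2 * (C.kern \ B).card ≤
        ∑ i ∈ C.kern \ B, (C.nh (C.gate i).fst + C.nh (C.gate i).snd) := by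
      rw [Finset.card_eq_sum_ones, Finset.mul_sum]
      apply Finset.sum_le_sum
      intro i hi
      obtain ⟨hi1, hi2⟩ := Finset.mem_sdiff.1 hi
      obtain ⟨hi3, hi4⟩ := Finset.mem_filter.1 hi1
      rcases hi4 with h | h
      · exact absurd (Finset.mem_filter.2 ⟨hi3, h⟩) hi2
      · simp only [nh, h.1, h.2, if_false]; norm_num
    have e3 : (C.kern \ B).card + B.card = C.kern.card := Finset.card_sdiff_add_card_eq_card hBK
    omega
  omega

/-- the kernel circuit, restricted to the kernel gates below `i` -/
lemma kernel_step {m : ℕ} (φ : (Fin n → Bool) → Fin m → Bool) (idx : ℕ → Bool → Bool → Fin m)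
    (hφ : ∀ v < C.size, ∀ s t x, φ x (idx v s t) =
      (C.gate v).op (C.nfn s x (C.gate v).fst) (C.nfn t x (C.gate v).snd)) :
    ∀ i ≤ C.size, ∃ (P : Circuit m) (π : ℕ → Node m), (∀ v j, (π v).wires j ≠ 0 → j < P.size) ∧
      P.size ≤ 32 * (C.kern.filter (fun v => v < i)).card ∧
      ∀ x, ∀ v ∈ C.kern, v < i → (π v).eval (φ x) (P.val (φ x)) = C.val x v := by
  obtain ⟨k, hk⟩ : ∃ k, 2 * C.size + 1 < 2 ^ k :=
    ⟨2 * C.size + 1, Nat.lt_two_pow_self⟩
  have hsys := C.isSys hk
  intro i
  induction i with
  | zero =>
    intro _
    refine ⟨Circuit.empty m, fun _ => .const false, ?_, ?_, ?_⟩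
    · intro v j hj; exact absurd rfl hj
    · exact Nat.zero_le _
    · intro x v _ hv; omega
  | succ i ih =>
    intro hi
    obtain ⟨P, π, hπ, hP, hval⟩ := ih (by omega)
    by_cases hik : i ∈ C.kern
    · -- append the gate
      set ν : Fin 6 → Node m := ![onode π (C.nhead (C.gate i).fst), onode π (C.nhead (C.gate i).snd),
        .var (idx i true true), .var (idx i true false), .var (idx i false true),
        .var (idx i false false)] with hν
      have ho : ∀ (o : Option ℕ) j, (onode π o).wires j ≠ 0 → j < P.size := by
        intro o j hj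
        cases o with
        | none => exact absurd rfl hj
        | some u => exact hπ u j hj
      have hνw : ∀ l j, (ν l).wires j ≠ 0 → j < P.size := by
        intro l j hj
        fin_cases l
        · exact ho _ j hj
        · exact ho _ j hj
        · exact absurd rfl hj
        · exact absurd rfl hj
        · exact absurd rfl hj
        · exact absurd rfl hj
      obtain ⟨P', hext, hsz, hev, -⟩ := Circuit.build muxF P ν hνw
      refine ⟨P', Function.update π i P'.out, ?_, ?_, ?_⟩
      · intro v j hj
        by_cases hv : v = i
        · subst hv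
          rw [Function.update_self] at hj
          exact P'.out_lt j hj
        · rw [Function.update_of_ne hv] at hj
          exact lt_of_lt_of_le (hπ v j hj) hext.1
      · have hf : C.kern.filter (fun v => v < i + 1) =
            insert i (C.kern.filter (fun v => v < i)) := by
          ext v
          simp only [Finset.mem_filter, Finset.mem_insert]
          constructor
          · rintro ⟨h1, h2⟩
            rcases Nat.lt_succ_iff_lt_or_eq.1 h2 with h | h
            · exact Or.inr ⟨h1, h⟩
            · exact Or.inl h
          · rintro (h | ⟨h1, h2⟩)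
            · subst h; exact ⟨hik, Nat.lt_succ_self _⟩
            · exact ⟨h1, by omega⟩
        rw [hf, Finset.card_insert_of_notMem (by simp)]
        have hd : muxF.depth = 4 := rfl
        rw [hd] at hsz
        norm_num at hsz
        omega
      · intro x v hv hvi
        by_cases hvi' : v = i
        · subst hvi'
          rw [Function.update_self]
          have e1 : P'.out.eval (φ x) (P'.val (φ x)) = P'.eval (φ x) := rfl
          rw [e1, hev, muxF_eval]
          have harg : ∀ o : Option ℕ, (∀ u, o = some u → u ∈ C.kern ∧ u < v) →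
              (onode π o).eval (φ x) (P.val (φ x)) = arg C.vf x o := by
            intro o ho
            cases o with
            | none => rfl
            | some u => exact hval x u (ho u rfl).1 (ho u rfl).2
          have h0 : (ν 0).eval (φ x) (P.val (φ x)) = arg C.vf x (C.nhead (C.gate v).fst) :=
            harg _ (hsys.lta v hv)
          have h1 : (ν 1).eval (φ x) (P.val (φ x)) = arg C.vf x (C.nhead (C.gate v).snd) :=
            harg _ (hsys.ltb v hv)
          have h2 : (ν 2).eval (φ x) (P.val (φ x)) = φ x (idx v true true) := rfl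
          have h3 : (ν 3).eval (φ x) (P.val (φ x)) = φ x (idx v true false) := rfl
          have h4 : (ν 4).eval (φ x) (P.val (φ x)) = φ x (idx v false true) := rfl
          have h5 : (ν 5).eval (φ x) (P.val (φ x)) = φ x (idx v false false) := rfl
          simp only [h0, h1, h2, h3, h4, h5]
          have hv' : v < C.size := by omega
          simp only [hφ v hv']
          have hve : C.val x v = (C.gate v).op
              (C.nfn (arg C.vf x (C.nhead (C.gate v).fst)) x (C.gate v).fst)
              (C.nfn (arg C.vf x (C.nhead (C.gate v).snd)) x (C.gate v).snd) :=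
            hsys.val_eq v hv x
          rw [hve]
          cases arg C.vf x (C.nhead (C.gate v).fst) <;>
            cases arg C.vf x (C.nhead (C.gate v).snd) <;> simp
        · rw [Function.update_of_ne hvi', hext.node_eval _ (hπ v)]
          exact hval x v hv (by omega)
    · refine ⟨P, π, hπ, ?_, ?_⟩
      · refine hP.trans ?_
        apply Nat.mul_le_mul_left
        apply Finset.card_le_card
        intro v hv
        simp only [Finset.mem_filter] at hv ⊢
        exact ⟨hv.1, by omega⟩
      · intro x v hv hvi
        have : v ≠ i := fun h => hik (h ▸ hv)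
        exact hval x v hv (by omega)

/-- **The kernel as a circuit.** -/
theorem exists_kernel {k : ℕ} (hk : 2 * C.size + 1 < 2 ^ k) :
    ∃ (m : ℕ) (K : Circuit m) (φ : Fin m → BF n), K.size ≤ 96 * C.excess + 8 ∧
      (∀ i, Dp (φ i) (3 * k)) ∧ ∀ x, C.eval x = K.eval (fun i => φ i x) := by
  classical
  let T := (Fin C.size × Bool × Bool) ⊕ Bool
  let e : T ≃ Fin (Fintype.card T) := Fintype.equivFin T
  let φ' : T → BF n := Sum.elim
    (fun p x => (C.gate p.1).op (C.nfn p.2.1 x (C.gate p.1).fst)
      (C.nfn p.2.2 x (C.gate p.1).snd))
    (fun s x => C.nfn s x C.out)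
  have hout : ∀ j, C.out = .gate j → j < C.size := fun j h => C.out_lt j (by simp [h, Node.wires])
  have hdp : ∀ t, Dp (φ' t) (3 * k) := by
    intro t
    rcases t with ⟨v, s, t⟩ | s
    · have hv' : (v : ℕ) < C.size := v.2
      have h1 := C.sz_nfn (a := (C.gate v).fst) (fun j h => (C.fst_lt hv' h).trans hv') s
      have h2 := C.sz_nfn (a := (C.gate v).snd) (fun j h => (C.snd_lt hv' h).trans hv') t
      have h3 := C.nfsz_le (a := (C.gate v).fst) (fun j h => (C.fst_lt hv' h).trans hv')
      have h4 := C.nfsz_le (a := (C.gate v).snd) (fun j h => (C.snd_lt hv' h).trans hv')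
      exact ((C.gate v).sz_op h1 h2).dp (by omega)
    · have h1 := C.sz_nfn (a := C.out) hout s
      have h2 := C.nfsz_le (a := C.out) hout
      exact h1.dp (by omega)
  let φ : (Fin n → Bool) → Fin (Fintype.card T) → Bool := fun x i => φ' (e.symm i) x
  let idx : ℕ → Bool → Bool → Fin (Fintype.card T) := fun v s t =>
    if h : v < C.size then e (Sum.inl (⟨v, h⟩, s, t)) else e (Sum.inr true)
  obtain ⟨P, π, hπ, hP, hval⟩ := C.kernel_step φ idx (by
    intro v hv s t x
    simp [φ, idx, hv, φ']) C.size le_rfl
  have hkf : C.kern.filter (fun v => v < C.size) = C.kern := by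
    apply Finset.filter_true_of_mem
    intro v hv
    exact Finset.mem_range.1 (Finset.mem_filter.1 hv).1
  rw [hkf] at hP
  have hkc := C.kern_card
  set ν : Fin 3 → Node (Fintype.card T) := ![onode π (C.nhead C.out),
    .var (e (Sum.inr true)), .var (e (Sum.inr false))] with hν
  have hνw : ∀ l j, (ν l).wires j ≠ 0 → j < P.size := by
    intro l j hj
    fin_cases l
    · change (onode π (C.nhead C.out)).wires j ≠ 0 at hj
      cases hh : C.nhead C.out with
      | none => rw [hh] at hj; exact absurd rfl hj
      | some u => rw [hh] at hj; exact hπ u j hj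
    · exact absurd rfl hj
    · exact absurd rfl hj
  obtain ⟨P', hext, hsz, hev, -⟩ := Circuit.build muxG P ν hνw
  refine ⟨_, P', fun i => φ' (e.symm i), ?_, fun i => hdp _, fun x => ?_⟩
  · have hd : muxG.depth = 2 := rfl
    rw [hd] at hsz
    norm_num at hsz
    omega
  · have h := hev (φ x)
    rw [muxG_eval] at h
    have h0 : (ν 0).eval (φ x) (P.val (φ x)) = arg C.vf x (C.nhead C.out) := by
      change (onode π (C.nhead C.out)).eval (φ x) (P.val (φ x)) = _
      cases hh : C.nhead C.out with
      | none => rfl
      | some u =>
        cases ho : C.out with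
        | var i => rw [ho] at hh; simp [nhead] at hh
        | const b => rw [ho] at hh; simp [nhead] at hh
        | gate j =>
          rw [ho] at hh
          have hj := hout j ho
          have := C.head_some hj hh
          have hu : u ∈ C.kern := Finset.mem_filter.2 ⟨Finset.mem_range.2 (by omega), this.1⟩
          exact hval x u hu (by omega)
    have h1 : (ν 1).eval (φ x) (P.val (φ x)) = C.nfn true x C.out := by
      change φ x (e (Sum.inr true)) = _
      simp [φ, φ']
    have h2 : (ν 2).eval (φ x) (P.val (φ x)) = C.nfn false x C.out := by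
      change φ x (e (Sum.inr false)) = _
      simp [φ, φ']
    simp only [h0, h1, h2] at h
    have h3 : C.eval x = C.nfn (arg C.vf x (C.nhead C.out)) x C.out := C.nval_eq hout x
    change C.eval x = P'.eval (φ x)
    rw [h, h3]
    cases arg C.vf x (C.nhead C.out) <;> simp

end Circuit

end Pool.Agent.H540R2
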