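import Mathlib
import Pool.Agent.H540R2.Circ

/-!
# Two properties of a function `e : ℕ → ℕ`
-/

set_option autoImplicit false

namespace Pool.Agent.H540R2

/-- `A(e)`: the conclusion of Q1 (equivalent circuit of depth `c log₂ S` and size `S ^ c`) holds
for all circuits with `S ≥ 2` gates and fan-out excess at most `e S`. -/
def BalancedExcess (e : ℕ → ℕ) : Prop :=
  ∃ c : ℕ, ∀ (n : ℕ) (C : Circuit n), 2 ≤ C.size → C.excess ≤ e C.size →
    ∃ C' : Circuit n, C.Equiv C' ∧ (C'.depth : ℝ) ≤ c * Real.logb 2 C.size ∧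
      C'.size ≤ C.size ^ c

/-- `B(e)`: every circuit with at most `e S` gates, `S ≥ 2`, has an equivalent circuit of depth at
most `c log₂ S`. -/
def ShallowUpTo (e : ℕ → ℕ) : Prop :=
  ∃ c : ℕ, ∀ (n : ℕ) (C : Circuit n) (S : ℕ), 2 ≤ S → C.size ≤ e S →
    ∃ C' : Circuit n, C.Equiv C' ∧ (C'.depth : ℝ) ≤ c * Real.logb 2 S

end Pool.Agent.H540R2
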