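import Mathlib
import Pool.Agent.H540R2.Calib2
import Pool.Agent.H540R2.CalibDefs

/-!
# Q1 for circuits of bounded fan-out excess and depth bounds for small circuits
-/

set_option autoImplicit false

namespace Pool.Agent.H540R2

lemma one_le_logb {s : ℕ} (hs : 2 ≤ s) : (1 : ℝ) ≤ Real.logb 2 s := by
  rw [show (1 : ℝ) = Real.logb 2 2 by simp]
  exact Real.logb_le_logb_of_le (by norm_num) (by norm_num) (by exact_mod_cast hs)

lemma logb_pow_nat (s p : ℕ) : Real.logb 2 ((s ^ p : ℕ) : ℝ) = p * Real.logb 2 s := by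
  push_cast
  rw [Real.logb_pow]

/-- from a real depth bound to a circuit of polynomial size -/
lemma poly_of_dp {n : ℕ} {f : BF n} {d c : ℕ} {S : ℕ} (hS : 2 ≤ S) (h : Dp f d)
    (hd : ((d + 1 : ℕ) : ℝ) ≤ c * Real.logb 2 S) :
    ∃ C' : Circuit n, (∀ x, f x = C'.eval x) ∧ (C'.depth : ℝ) ≤ c * Real.logb 2 S ∧
      C'.size ≤ S ^ c := by
  obtain ⟨C', h1, h2, h3⟩ := h.toCircuit
  refine ⟨C', fun x => (h3 x).symm, le_trans (by exact_mod_cast h1) hd, ?_⟩
  have h4 : ((2 ^ (d + 1) : ℕ) : ℝ) ≤ ((S ^ c : ℕ) : ℝ) := by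
    have hSpos : (0 : ℝ) < S := by positivity
    have e1 : ((2 ^ (d + 1) : ℕ) : ℝ) = (2 : ℝ) ^ (((d + 1 : ℕ) : ℝ)) := by
      rw [Real.rpow_natCast]; push_cast; rfl
    have e2 : ((S ^ c : ℕ) : ℝ) = (2 : ℝ) ^ (c * Real.logb 2 S) := by
      rw [mul_comm, Real.rpow_mul (by norm_num), Real.rpow_logb (by norm_num) (by norm_num) hSpos,
        Real.rpow_natCast]
      push_cast; rfl
    rw [e1, e2]
    exact Real.rpow_le_rpow_of_exponent_le (by norm_num) hd
  have h5 : 2 ^ (d + 1) ≤ S ^ c := by exact_mod_cast h4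
  omega

/-- **Q1 for circuits of excess at most `e`, and depth bounds for circuits of size at most `e`.** -/
theorem calibration (e : ℕ → ℕ) (p : ℕ) (hp0 : 1 ≤ p)
    (hp : ∀ S, 2 ≤ S → 128 * (e S + 1) ≤ e (S ^ p) ∧ e S ≤ S ^ p) :
    BalancedExcess e ↔ ShallowUpTo e := by
  have hp1 : p ≠ 0 := by omega
  constructor
  · rintro ⟨c, hc⟩
    refine ⟨c * p, fun n C S hS hCS => ?_⟩
    obtain ⟨h1, h2⟩ := hp S hS
    have hSp : 2 ≤ S ^ p := le_trans hS (Nat.le_self_pow hp1 S)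
    have hs : (C.padK (S ^ p - C.size)).size = S ^ p := by
      rw [C.padK_size]; omega
    obtain ⟨C', e1, e2, -⟩ := hc n (C.padK (S ^ p - C.size)) (by rw [hs]; exact hSp) (by
      rw [hs]
      have := C.padK_excess (S ^ p - C.size)
      omega)
    refine ⟨C', fun x => ?_, ?_⟩
    · rw [← e1 x, C.padK_eval]
    · rw [hs, logb_pow_nat] at e2
      push_cast
      linarith
  · rintro ⟨c, hc⟩
    refine ⟨c * p + 14, fun n C hC hCe => ?_⟩
    obtain ⟨k, hk, hk'⟩ := exists_k C.size hC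
    obtain ⟨m, K, φ, hK, hφ, hev⟩ := C.exists_kernel hk
    obtain ⟨h1, h2⟩ := hp C.size hC
    have hSp : 2 ≤ C.size ^ p := le_trans hC (Nat.le_self_pow hp1 _)
    obtain ⟨K', f1, f2⟩ := hc m K (C.size ^ p) hSp (by omega)
    have hd : Dp C.eval (K'.depth + 3 * k) := by
      refine (K'.dp_unfold.comp hφ).congr fun x => ?_
      rw [hev x, f1]
    have hl := one_le_logb hC
    rw [logb_pow_nat] at f2
    obtain ⟨C', g1, g2, g3⟩ := poly_of_dp (c := c * p + 14) hC hd (by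
      push_cast
      nlinarith)
    exact ⟨C', g1, g2, g3⟩

end Pool.Agent.H540R2
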